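import Pool.Agent.MP_1246c0_nt.H12.SpecN

/-! Masses of residue classes modulo powers of two. -/

namespace Pool.Agent.MP_1246c0_nt.H12

open Finset Filter Topology Real

namespace MASS

theorem p0 (σ : ℝ) (p : ℕ) : 0 ≤ pw σ p := rpow_nonneg p.cast_nonneg _

theorem pm {σ σ' : ℝ} (h : σ ≤ σ') {p : ℕ} (hp : 1 ≤ p) : pw σ' p ≤ pw σ p :=
  rpow_le_rpow_of_exponent_le (by exact_mod_cast hp) (by linarith)

theorem s0 {σ : ℝ} (h : 0 < σ) : Summable (pw σ) := summable_nat_rpow.2 (by linarith)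

theorem l0 (σ : ℝ) (p : ℕ) : 0 ≤ log p * pw σ p := mul_nonneg (log_natCast_nonneg p) (p0 σ p)

theorem sl {σ : ℝ} (h : 0 < σ) : Summable fun p : ℕ => log p * pw σ p := by
  refine .of_nonneg_of_le (l0 σ) (fun p => ?_) ((s0 (half_pos h)).div_const (σ / 2))
  rcases p.eq_zero_or_pos with rfl | hp
  · simpa using div_nonneg (p0 _ _) (half_pos h).le
  refine (mul_le_mul_of_nonneg_right (log_le_rpow_div p.cast_nonneg (half_pos h)) (p0 _ _)).trans_eq ?_
  rw [pw, pw, div_mul_eq_mul_div, ← rpow_add (by exact_mod_cast hp)]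
  ring_nf

theorem si {E : Type} [NormedAddCommGroup E] [CompleteSpace E] {f : ℕ → E} (hf : Summable f)
    (P : ℕ → Prop) {_ : DecidablePred P} : Summable fun p => if P p then f p else 0 :=
  (hf.indicator {p | P p}).congr fun p => by simp [Set.indicator_apply]

theorem sub (Q : ℕ → Prop) {f g : ℕ → ℝ} (hf : Summable f) (hg : Summable g) :
    SP' Q (fun p => f p - g p) = SP' Q f - SP' Q g := by
  rw [SP', SP', SP', ← (si hf _).tsum_sub (si hg _)]
  exact tsum_congr fun p => by split_ifs <;> simp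

theorem uni (Q Q' Q'' : ℕ → Prop) (h : ∀ p, p.Prime → Q p → Q' p ∨ Q'' p) {f : ℕ → ℝ}
    (hf : Summable f) (h0 : ∀ p, 0 ≤ f p) : SP' Q f ≤ SP' Q' f + SP' Q'' f := by
  rw [SP', SP', SP', ← (si hf _).tsum_add (si hf _)]
  refine (si hf _).tsum_le_tsum (fun p => ?_) ((si hf _).add (si hf _))
  have := h0 p
  have := h p
  split_ifs <;> first | linarith | tauto

theorem mono (Q Q' : ℕ → Prop) (h : ∀ p, Q p → Q' p) {f : ℕ → ℝ}
    (hf : Summable f) (h0 : ∀ p, 0 ≤ f p) : SP' Q f ≤ SP' Q' f := by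
  refine (si hf _).tsum_le_tsum (fun p => ?_) (si hf _)
  have := h0 p
  have := h p
  split_ifs <;> first | linarith | tauto

theorem der (Q : ℕ → Prop) {t : ℝ} (ht : 0 < t) :
    HasDerivAt (fun t => SP' Q (pw t)) (-SP' Q fun p => log p * pw t p) t := by
  classical
  rw [SP', ← tsum_neg]
  refine hasDerivAt_tsum_of_isPreconnected (g := fun p y => if p.Prime ∧ Q p then pw y p else 0)
    (g' := fun p y => -if p.Prime ∧ Q p then log p * pw y p else 0) (sl (half_pos ht))
    isOpen_Ioi isPreconnected_Ioi (fun p y _ => ?_) (fun p y hy => ?_) (half_lt_self ht)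
    (si (s0 ht) _) (half_lt_self ht)
  · split_ifs with c
    · refine (((hasDerivAt_id y).const_sub (-1)).const_rpow
        (a := p) (by exact_mod_cast c.1.pos)).congr_deriv ?_
      simp [pw]
    · simpa using hasDerivAt_const y (0 : ℝ)
  · split_ifs with c
    · rw [norm_neg, norm_of_nonneg (l0 _ _)]
      exact mul_le_mul_of_nonneg_left (pm (le_of_lt hy) c.1.pos) (log_natCast_nonneg p)
    · simpa using l0 _ _

theorem mv (Q : ℕ → Prop) {c M σ σ' : ℝ}
    (h : ∀ t, 0 < t → t ≤ 1 → |SP' Q (fun p => log p * pw t p) - c / t| ≤ M) (h0 : 0 < σ)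
    (h1 : σ ≤ σ') (h2 : σ' ≤ 1) :
    |SP' Q (fun p => pw σ p - pw σ' p) - c * log (σ' / σ)| ≤ M * σ' := by
  have := norm_image_sub_le_of_norm_deriv_le_segment' (a := σ) (b := σ') (C := M)
    (f := fun t => SP' Q (pw t) + c * log t)
    (fun t ht => ((der Q (h0.trans_le ht.1)).add
      ((hasDerivAt_log (h0.trans_le ht.1).ne').const_mul c)).hasDerivWithinAt)
    (fun t ht => by
      rw [norm_eq_abs, neg_add_eq_sub, abs_sub_comm]
      exact h t (h0.trans_le ht.1) (ht.2.le.trans h2)) σ' ⟨h1, le_rfl⟩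
  have hM := (abs_nonneg _).trans (h σ h0 (h1.trans h2))
  rw [sub Q (s0 h0) (s0 (h0.trans_le h1)), log_div (h0.trans_le h1).ne' h0.ne', abs_sub_comm]
  refine le_trans (le_of_eq ?_) (this.trans (mul_le_mul_of_nonneg_left (sub_le_self _ h0.le) hM))
  rw [norm_eq_abs]
  ring_nf

open Classical in
theorem orth {q b : ℕ} [NeZero q] (hb : IsUnit (b : ZMod q)) (hq : b < q) {f : ℕ → ℝ}
    (hf : Summable f) {c M : ℝ} (h : ∀ ψ : DirichletCharacter ℂ q,
      ‖(∑' p : ℕ, if p.Prime then ψ p * (f p : ℂ) else 0) - if ψ = 1 then (c : ℂ) else 0‖ ≤ M) :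
    |SP' (fun p => p % q = b) f - c / q.totient| ≤ M := by
  have hφ : (0 : ℝ) < q.totient := by exact_mod_cast Nat.totient_pos.2 (NeZero.pos q)
  have e : (((q.totient * (SP' (fun p => p % q = b) f - c / q.totient) : ℝ)) : ℂ) =
      ∑ ψ : DirichletCharacter ℂ q, ψ (b : ZMod q)⁻¹ *
        ((∑' p : ℕ, if p.Prime then ψ p * (f p : ℂ) else 0) - if ψ = 1 then (c : ℂ) else 0) := by
    rw [mul_sub, mul_div_cancel₀ _ hφ.ne', SP', ← tsum_mul_left]
    simp only [mul_sub, sum_sub_distrib, ← tsum_mul_left, mul_ite, mul_zero, sum_ite_eq', mem_univ,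
      if_true]
    rw [← Summable.tsum_finsetSum fun ψ _ => si ?_ _, Complex.ofReal_sub, Complex.ofReal_tsum,
      MulChar.one_apply (.of_mul_eq_one _ (ZMod.inv_mul_of_unit _ hb)), one_mul]
    · refine congrArg (· - _) (tsum_congr fun p => ?_)
      by_cases c : p.Prime
      · simp only [c, if_true, true_and, ← mul_assoc, ← sum_mul,
          DirichletCharacter.sum_char_inv_mul_char_eq ℂ hb, ZMod.natCast_eq_natCast_iff',
          Nat.mod_eq_of_lt hq, eq_comm (a := b)]
        split_ifs <;> simp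
      · simp [c]
    · refine Summable.mul_left _ (Summable.of_norm_bounded (g := fun p => ‖f p‖) hf.norm fun p => ?_)
      rw [norm_mul, Complex.norm_real]
      exact mul_le_of_le_one_left (norm_nonneg _) (ψ.norm_le_one _)
  refine le_of_mul_le_mul_left ?_ hφ
  replace e := congrArg norm e
  rw [Complex.norm_real, norm_eq_abs, abs_mul, abs_of_pos hφ] at e
  rw [e, ← DirichletCharacter.card_eq_totient_of_hasEnoughRootsOfUnity ℂ, Nat.card_eq_fintype_card,
    ← nsmul_eq_mul, ← card_univ, ← sum_const]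
  refine norm_sum_le_of_le _ fun ψ _ => ?_
  rw [norm_mul]
  exact (mul_le_of_le_one_left (norm_nonneg _) (ψ.norm_le_one _)).trans (h ψ)

theorem zeta {σ : ℝ} (h : 0 < σ) : ∑' j, pw σ (j + 1) ≤ 1 + 1 / σ := by
  have key : ∀ n : ℕ, ∑ j ∈ range (n + 1), pw σ (j + 1) ≤ 1 + (1 - (n + 1 : ℝ) ^ (-σ)) / σ := by
    intro n
    induction n with
    | zero => simp [pw]
    | succ n ih =>
      have a : (0 : ℝ) < n + 1 := by positivity
      have b : (0 : ℝ) < n + 1 + 1 := by positivity
      have c := one_sub_inv_le_log_of_pos (div_pos b a)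
      have d := add_one_le_exp (log ((n + 1 + 1 : ℝ) / (n + 1)) * σ)
      have e : (n + 1 : ℝ) ^ (-σ) = ((n + 1 + 1 : ℝ) / (n + 1)) ^ σ * (n + 1 + 1 : ℝ) ^ (-σ) := by
        rw [div_rpow b.le a.le, rpow_neg a.le, rpow_neg b.le]
        field_simp
      have f : 1 - ((n + 1 + 1 : ℝ) / (n + 1))⁻¹ = (n + 1 + 1 : ℝ)⁻¹ := by
        field_simp
        ring
      rw [← rpow_def_of_pos (div_pos b a)] at d
      rw [sum_range_succ, pw, sub_eq_add_neg (-1 : ℝ)]
      push_cast
      rw [rpow_add b, rpow_neg_one]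
      refine (add_le_add_left ih _).trans ?_
      rw [e, add_assoc, add_le_add_iff_left, div_add' _ _ _ h.ne', div_le_div_iff_of_pos_right h]
      have g := rpow_pos_of_pos b (-σ)
      have := mul_le_mul_of_nonneg_right (f ▸ c) h.le
      nlinarith
  refine Real.tsum_le_of_sum_range_le (fun _ => p0 _ _) fun n => ?_
  refine (sum_le_sum_of_subset_of_nonneg (range_subset_range.2 n.le_succ) fun _ _ _ => p0 _ _).trans
    ((key n).trans ?_)
  have : (0 : ℝ) ≤ (n + 1 : ℝ) ^ (-σ) := by positivity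
  gcongr
  linarith

theorem cls {q b : ℕ} (hq : 2 ≤ q) (hb : b = 1 ∨ q ≤ 2 * b) {σ : ℝ} (h : 0 < σ) :
    SP' (fun p => p % q = b) (pw σ) ≤ 2 / q * (1 + 1 / σ) := by
  have i : Function.Injective fun j => q * j + b := fun j j' e => by
    simpa [show q ≠ 0 by omega] using e
  have s := (summable_nat_add_iff 1).2 (s0 h)
  have q2 : (1 : ℝ) ≤ q / 2 := by
    rw [le_div_iff₀ two_pos, one_mul]
    exact_mod_cast hq
  rw [SP', ← i.tsum_eq fun p hp => ?_]
  · refine le_trans ?_ (mul_le_mul_of_nonneg_left (zeta h) (by positivity))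
    rw [← tsum_mul_left]
    refine Summable.tsum_le_tsum (fun j => ?_)
      (si (f := fun j => pw σ (q * j + b)) ((s0 h).comp_injective i) _) (s.mul_left _)
    have := p0 σ (j + 1)
    split_ifs with c
    · have e : q * (j + 1) ≤ 2 * (q * j + b) := by
        rcases j with _ | j
        · rcases hb with rfl | hb
          · exact absurd c.1 (by simpa using Nat.not_prime_one)
          · omega
        · nlinarith [Nat.zero_le (q * j)]
      refine (rpow_le_rpow_of_nonpos (x := q / 2 * (j + 1 : ℕ)) (by positivity) ?_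
        (by linarith)).trans ?_
      · rw [div_mul_eq_mul_div, div_le_iff₀' two_pos]
        exact_mod_cast e
      · rw [mul_rpow (by positivity) (by positivity), ← inv_div (q : ℝ) 2, ← rpow_neg_one]
        exact mul_le_mul_of_nonneg_right (rpow_le_rpow_of_exponent_le q2 (sub_le_self _ h.le)) this
    · positivity
  · refine ⟨p / q, ?_⟩
    by_contra c
    refine hp (if_neg fun d => c ?_)
    rw [← d.2]
    exact Nat.div_add_mod p q

end MASS

open MASS in
theorem rowMASS : OfMASS := by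
  rintro ⟨C, hC⟩
  obtain ⟨K, hK⟩ := (tendsto_pow_const_div_const_pow_of_one_lt 10 (one_lt_two (α := ℝ))).bddAbove_range
  have C0 : 0 ≤ C := by
    have := (norm_nonneg _).trans (hC 1 1 1 le_rfl one_pos le_rfl)
    norm_num at this
    exact this
  have K0 : 0 ≤ K := le_trans (by positivity) (hK ⟨0, rfl⟩)
  have A : ∀ k b : ℕ, 1 ≤ k → Odd b → b < 2 ^ k → ∀ t, 0 < t → t ≤ 1 →
      |SP' (fun p => p % 2 ^ k = b) (fun p => log p * pw t p) - 2 / 2 ^ k / t| ≤
        C * (k + 1) ^ 10 := by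
    intro k b hk hb hq t h0 h1
    have := orth ((ZMod.isUnit_iff_coprime _ _).2 ((Nat.coprime_two_right.2 hb).pow_right k)) hq
      (sl h0) fun ψ => hC k ψ t hk h0 h1
    obtain ⟨k, rfl⟩ := Nat.exists_eq_add_of_le' hk
    rw [Nat.totient_prime_pow_succ Nat.prime_two] at this
    refine le_trans (le_of_eq (congrArg (|_ - ·|) ?_)) this
    push_cast
    field_simp
    ring
  have B : ∀ t, 0 < t → t ≤ 1 →
      |SP' (fun _ => True) (fun p => log p * pw t p) - 1 / t| ≤ C * 2 ^ 10 + 1 := by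
    intro t h0 h1
    have a := abs_le.1 (A 1 1 le_rfl odd_one (by norm_num) t h0 h1)
    have b := mono (fun p => p % 2 ^ 1 = 1) (fun _ => True) (fun _ _ => trivial) (sl h0) (l0 t)
    have c := uni (fun _ => True) (fun p => p % 2 ^ 1 = 1) (· = 2)
      (fun p hp _ => hp.eq_two_or_odd.symm) (sl h0) (l0 t)
    have d : SP' (· = 2) (fun p => log p * pw t p) ≤ 1 := by
      rw [SP', tsum_eq_single 2 fun p hp => by simp [hp], if_pos ⟨Nat.prime_two, rfl⟩]
      exact mul_le_one₀ ((log_le_sub_one_of_pos (by norm_num)).trans (by norm_num)) (p0 _ _)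
        (rpow_le_one_of_one_le_of_nonpos (by norm_num) (by linarith))
    norm_num at a b c ⊢
    rw [abs_le]
    constructor <;> linarith [a.1, a.2]
  refine ⟨C * 2 ^ 10 + 1 + |SP' (fun _ => True) (pw 1)| + 2 * (4 + 4 * K), by positivity,
    fun σ h0 h1 => ⟨sl h0, s0 h0, ?_, ?_, fun k b σ' hk hb hq h2 h3 => ?_, fun k hk hl => ?_⟩⟩
  · linarith [(abs_le.1 (B σ h0 h1)).2, abs_nonneg (SP' (fun _ => True) (pw 1))]
  · have := abs_le.1 (mv _ B h0 h1 le_rfl)
    rw [sub _ (s0 h0) (s0 one_pos)] at this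
    rw [abs_le]
    constructor <;> linarith [this.1, this.2, le_abs_self (SP' (fun _ => True) (pw 1)),
      neg_abs_le (SP' (fun _ => True) (pw 1))]
  · refine (mv _ (A k b hk hb hq) h0 h2 h3).trans ?_
    have := h0.trans_le h2
    gcongr
    linarith [abs_nonneg (SP' (fun _ => True) (pw 1))]
  · have q2 : 2 ^ 2 ≤ 2 ^ k := Nat.pow_le_pow_right two_pos hk
    have q0 : (1 : ℝ) ≤ 2 ^ k := one_le_pow₀ one_le_two
    have k1 : (1 : ℝ) ≤ (k + 1) ^ 10 := one_le_pow₀ (by simp)
    have k2 : ((k + 1 : ℕ) : ℝ) ^ 10 / 2 ^ (k + 1) ≤ K := hK ⟨k + 1, rfl⟩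
    have D : ∀ b, Odd b → b < 2 ^ k → b = 1 ∨ 2 ^ k ≤ 2 * b →
        SP' (fun p => p % 2 ^ k = b) (pw σ) ≤ C + (4 + 4 * K) := by
      intro b hb hq hb'
      have E : ∀ t, 1 / (k + 1 : ℝ) ^ 10 ≤ t → SP' (fun p => p % 2 ^ k = b) (pw t) ≤ 2 + 4 * K := by
        intro t ht
        have t0 : 0 < t := lt_of_lt_of_le (by positivity) ht
        refine (cls (by omega) hb' t0).trans ?_
        rw [one_div_le (by positivity) t0] at ht
        push_cast at k2 ⊢
        rw [div_le_iff₀ (by positivity), pow_succ (2 : ℝ)] at k2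
        rw [div_mul_eq_mul_div, div_le_iff₀ (by positivity)]
        nlinarith
      rcases le_total (1 / (k + 1 : ℝ) ^ 10) σ with c | c
      · linarith [E σ c]
      have c1 : 1 / (k + 1 : ℝ) ^ 10 ≤ 1 := (div_le_one (by positivity)).2 k1
      have := (abs_le.1 (mv _ (A k b (by omega) hb hq) h0 c c1)).2
      rw [sub _ (s0 h0) (s0 (h0.trans_le c)), mul_assoc, mul_one_div_cancel (by positivity)] at this
      have F : 2 / 2 ^ k * log (1 / (k + 1 : ℝ) ^ 10 / σ) ≤ 2 := by
        rw [div_mul_eq_mul_div, div_le_iff₀ (by positivity)]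
        refine mul_le_mul_of_nonneg_left (le_trans (log_le_log (by positivity) ?_) hl) zero_le_two
        gcongr
      linarith [E _ le_rfl]
    have := uni _ (fun p => p % 2 ^ k = 1) (fun p => p % 2 ^ k = 2 ^ k - 1) (fun _ _ h => h)
      (s0 h0) (p0 σ)
    linarith [D 1 odd_one (by omega) (.inl rfl), D (2 ^ k - 1)
      (Nat.Even.sub_odd (by omega) (Even.pow_of_ne_zero even_two (by omega)) odd_one) (by omega)
      (.inr (by omega)), abs_nonneg (SP' (fun _ => True) (pw 1))]

end Pool.Agent.MP_1246c0_nt.H12
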