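import Pool.Agent.MP_1246c0_nt.H12.SpecR

/-! Failure in small degree, and the size of the kernel. -/

namespace Pool.Agent.MP_1246c0_nt.H12

open Polynomial Finset Matrix

namespace LD

theorem lr : LR i2 i2 0 1 :=
  ⟨rfl, fun _ => rfl, fun _ => rfl, fun h => ⟨0, by revert h; decide⟩,
    fun _ => zero_dvd_iff.symm, rfl⟩

theorem er_mono {γ γ' : ℕ} (h : γ ≤ γ') (z m : ℕ) : Er γ z m ≤ Er γ' z m := by
  unfold Er
  gcongr
  norm_num

theorem er_pos (γ z m : ℕ) : 0 ≤ Er γ z m := by unfold Er; positivity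

theorem ind_le {p : Prop} {x : ℝ} (h0 : 0 ≤ x) (h : p → 1 ≤ x) : ind p ≤ x := by
  unfold ind
  split_ifs with hp
  exacts [h hp, h0]

theorem one_of_ne {x : F2} (h : x ≠ 0) : x = 1 := by revert x; decide

theorem exists_irr {d : ℕ} (hd : 2 ≤ d) : ∃ s : Finset F2[X], s.card ≤ 2 ^ (d - 2) ∧
    ∀ p, p ∈ s ↔ Irreducible p ∧ p.natDegree = d := by
  have h : Set.InjOn (fun (p : F2[X]) (i : Fin (d - 2)) => p.coeff (i + 2))
      {p | Irreducible p ∧ p.natDegree = d} := by
    rintro p ⟨p1, p2⟩ q ⟨q1, q2⟩ e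
    refine sub_eq_zero.1 (eq_zero_of_natDegree_lt_card_of_eval_eq_zero _ Function.injective_id
      (fun x => ?_) (Nat.lt_succ_of_le (natDegree_le_iff_coeff_eq_zero.2 fun n hn => ?_)))
    · rw [eval_sub, one_of_ne (p1.not_isRoot_of_natDegree_ne_one (by omega)),
        one_of_ne (q1.not_isRoot_of_natDegree_ne_one (by omega)), sub_self]
    · rw [coeff_sub, sub_eq_zero]
      rcases lt_trichotomy n d with a | rfl | a
      · simpa only [Nat.sub_add_cancel (show 2 ≤ n from hn)] using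
          congrFun e ⟨n - 2, by have : 2 ≤ n := hn; omega⟩
      · have a := one_of_ne (leadingCoeff_ne_zero.2 p1.ne_zero)
        have b := one_of_ne (leadingCoeff_ne_zero.2 q1.ne_zero)
        rw [leadingCoeff, p2] at a
        rw [leadingCoeff, q2] at b
        rw [a, b]
      · rw [coeff_eq_zero_of_natDegree_lt (by omega), coeff_eq_zero_of_natDegree_lt (by omega)]
  have hf := Set.Finite.of_finite_image (Set.toFinite _) h
  refine ⟨hf.toFinset, ?_, fun p => hf.mem_toFinset⟩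
  exact (card_le_card_of_injOn (s := hf.toFinset) (t := univ) _ (fun _ _ => mem_univ _)
    (hf.coe_toFinset.symm ▸ h)).trans_eq (by rw [card_univ, Fintype.card_fun]; simp)

variable {ι : Type} [Fintype ι] [DecidableEq ι] {S : Matrix ι ι F2} {e : ι → F2} {P : Finset ι}
  {o : F2}

theorem sol_map {G G' : Type} [AddCommGroup G] [Module F2 G] [AddCommGroup G'] [Module F2 G']
    {u : Module.End F2 G} {u' : Module.End F2 G'} (φ : G →ₗ[F2] G') (h : ∀ x, φ (u x) = u' (φ x))
    {g : ι → G} (hg : Sol S e P o false u g) : Sol S e P o false u' fun l => φ (g l) := by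
  refine ⟨fun l => ?_, ?_⟩
  · simpa [ap, xv, rv, apply_ite φ, h] using congrArg φ (hg.1 l)
  · simpa [xv] using congrArg φ hg.2

theorem card_root {p : F2[X]} (hp : p ≠ 0) :
    Finite (AdjoinRoot p) ∧ Nat.card (AdjoinRoot p) = 2 ^ p.natDegree := by
  have := (AdjoinRoot.powerBasis hp).finite
  exact ⟨Module.finite_of_finite F2, by rw [Module.natCard_eq_pow_finrank (K := F2), Nat.card_zmod,
    (AdjoinRoot.powerBasis hp).finrank, AdjoinRoot.powerBasis_dim]⟩

theorem hit_le {p : F2[X]} (hp : Irreducible p) (h : Hit S e P o p) :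
    2 ^ p.natDegree - 1 ≤ Sur S e P o false (LinearMap.mulLeft F2 (AdjoinRoot.root p)) := by
  have := Fact.mk hp
  obtain ⟨_, hc⟩ := card_root hp.ne_zero
  obtain ⟨g, h0, hg⟩ := h
  obtain ⟨l, hl⟩ := Function.ne_iff.1 h0
  rw [← hc, ← Nat.card_units]
  refine Nat.card_le_card_of_injective (fun a => ⟨fun l => a * g l, sol_map
    (LinearMap.mulLeft F2 (a : AdjoinRoot p)) (fun x => mul_left_comm _ _ _) hg, fun W h1 h2 => ?_⟩)
    fun a a' e => Units.ext (mul_right_cancel₀ hl (congrFun (congrArg Subtype.val e) l))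
  have k : ∀ x ∈ Algebra.adjoin F2 {AdjoinRoot.root p}, ∀ w ∈ W, x * w ∈ W := fun x hx => by
    induction hx using Algebra.adjoin_induction with
    | mem x hx => exact hx ▸ h1
    | algebraMap c => exact fun w hw => Algebra.smul_def c w ▸ W.smul_mem c hw
    | add x y _ _ a b => exact fun w hw => add_mul x y w ▸ W.add_mem (a w hw) (b w hw)
    | mul x y _ _ a b => exact fun w hw => mul_assoc x y w ▸ a _ (b w hw)
  refine eq_top_iff.2 fun x _ => ?_
  rw [← div_mul_cancel₀ x (mul_ne_zero a.ne_zero hl)]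
  exact k _ (AdjoinRoot.adjoinRoot_eq_top.ge trivial) _ (h2 l)

variable (S e P o)

theorem sol_iff (β : F2) : ∃ M : Matrix (Option ι) ι F2, ∀ (G : Type) [AddCommGroup G]
    [Module F2 G] (g : ι → G), Sol S e P o false (β • LinearMap.id) g ↔
      ∀ r, ∑ l, M r l • g l = 0 := by
  refine ⟨fun r l' => r.elim (e l') fun l => S l l' - if l ∈ P then
    β * ((if l = l' then 1 else 0) + o * if l' ∈ P then 1 else 0) else 0, fun G _ _ g => ?_⟩
  rw [Option.forall, Sol, and_comm]
  refine and_congr (by simp [xv]) (forall_congr' fun l => ?_)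
  by_cases hl : l ∈ P
  · simp [ap, xv, rv, hl, sub_smul, sub_eq_zero, mul_smul, add_smul, ← smul_sum, sum_add_distrib]
  · simp [ap, xv, rv, hl]

theorem sur_eq (β : F2) : ∃ r : ℕ,
    Nat.card {y : ι → F2 // Sol S e P o false (β • LinearMap.id) y} = 2 ^ r ∧
    ∀ i, (Sur S e P o false (β • LinearMap.id : Module.End F2 (Fin i → F2)) : ℝ) =
      ∏ j ∈ range i, ((2 : ℝ) ^ r - 2 ^ j) := by
  obtain ⟨M, hM⟩ := sol_iff S e P o β
  have hK : ∀ y, y ∈ LinearMap.ker M.mulVecLin ↔ ∀ r, ∑ l, M r l • y l = 0 := fun y => funext_iff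
  refine ⟨Module.finrank F2 (LinearMap.ker M.mulVecLin), ?_, fun i => ?_⟩
  · rw [Nat.card_congr (Equiv.subtypeEquivRight fun y => (hM F2 y).trans (hK y).symm),
      Module.natCard_eq_pow_finrank (K := F2), Nat.card_zmod]
  have hG : ∀ g : ι → Fin i → F2, Gen (β • LinearMap.id : Module.End F2 (Fin i → F2)) g ↔
      LinearIndependent F2 (flip g) := fun g => by
    rw [← span_flip_eq_top_iff_linearIndependent]
    exact ⟨fun h => h _ (fun w hw => Submodule.smul_mem _ β hw) fun l =>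
      Submodule.subset_span ⟨l, rfl⟩, fun h W _ h2 => top_unique
        (h ▸ Submodule.span_le.2 (Set.range_subset_iff.2 h2))⟩
  have hL : ∀ s : Fin i → LinearMap.ker M.mulVecLin, LinearIndependent F2 (fun j => (s j).1) ↔
      LinearIndependent F2 s := fun s =>
    LinearMap.linearIndependent_iff (Submodule.subtype _) (Submodule.ker_subtype _)
  have hS : ∀ g : ι → Fin i → F2, Sol S e P o false (β • LinearMap.id) g ↔
      ∀ j, flip g j ∈ LinearMap.ker M.mulVecLin := fun g => by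
    simp only [hM, hK, funext_iff, Finset.sum_apply, Pi.smul_apply, Pi.zero_apply]
    exact forall_comm
  have : Sur S e P o false (β • LinearMap.id : Module.End F2 (Fin i → F2)) =
      Nat.card {s : Fin i → LinearMap.ker M.mulVecLin // LinearIndependent F2 s} :=
    Nat.card_congr ⟨fun g => ⟨fun j => ⟨flip g.1 j, (hS _).1 g.2.1 j⟩, (hL _).1 ((hG _).1 g.2.2)⟩,
      fun s => ⟨flip fun j => (s.1 j).1, (hS _).2 fun j => (s.1 j).2, (hG _).2 ((hL _).2 s.2)⟩,
      fun _ => rfl, fun _ => rfl⟩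
  rw [this]
  by_cases h : i ≤ Module.finrank F2 (LinearMap.ker M.mulVecLin)
  · rw [card_linearIndependent h, ZMod.card, Nat.cast_prod, ← Fin.prod_univ_eq_prod_range]
    refine prod_congr rfl fun j _ => ?_
    rw [Nat.cast_sub (Nat.pow_le_pow_right two_pos (j.2.le.trans h))]
    simp
  · rw [prod_eq_zero (mem_range.2 (not_le.1 h)) (sub_self _), Nat.cast_eq_zero, Nat.card_eq_zero]
    exact Or.inl ⟨fun s => h (by simpa using s.2.fintype_card_le_finrank)⟩

theorem cubic {r : ℕ} (hr : 1 ≤ r) : 0 ≤ ((2 : ℝ) ^ r - 2) * (2 ^ r - 4) * (2 ^ r - 8) := by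
  rcases Nat.lt_or_ge r 3 with h | h
  · interval_cases r <;> norm_num
  · have : (2 : ℝ) ^ 3 ≤ 2 ^ r := pow_le_pow_right₀ one_le_two h
    exact mul_nonneg (mul_nonneg (by linarith) (by linarith)) (by linarith)

theorem hit_one {p : F2[X]} (hp : p.natDegree = 1) {β : F2} (hβ : p.IsRoot β) :
    ind (Hit S e P o p) ≤
      (Sur S e P o false (β • LinearMap.id : Module.End F2 (Fin 1 → F2)) : ℝ) +
      (-1 / 3 * (Sur S e P o false (β • LinearMap.id : Module.End F2 (Fin 2 → F2)) : ℝ) +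
      1 / 21 * (Sur S e P o false (β • LinearMap.id : Module.End F2 (Fin 3 → F2)) : ℝ)) := by
  obtain ⟨r, h1, h2⟩ := sur_eq S e P o β
  simp only [h2, prod_range_succ, prod_range_zero]
  rcases r.eq_zero_or_pos with rfl | hr
  · refine ind_le (by norm_num) fun ⟨g, h0, hg⟩ => absurd (funext fun l => ?_) h0
    have := Fact.mk (irreducible_of_degree_eq_one ((degree_eq_iff_natDegree_eq_of_pos one_pos).2 hp))
    let φ := AdjoinRoot.liftAlgHom p (AlgHom.id F2 F2) β (by simpa using hβ)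
    have := (Nat.card_eq_one_iff_unique.1 h1).1.elim
      ⟨_, sol_map (u' := β • LinearMap.id) φ.toLinearMap (fun x => by simp [φ]) hg⟩
      ⟨_, sol_map (u' := β • LinearMap.id) 0 (fun x => by simp) hg⟩
    exact φ.toRingHom.injective ((congrFun (congrArg Subtype.val this) l).trans (map_zero _).symm)
  · have := cubic hr
    refine ind_le ?_ fun _ => ?_ <;> nlinarith

theorem ker_le (κ : ℕ) : ind (2 ^ κ < Kr S e ∅) ≤
    (Sur S e P 0 false ((0 : F2) • LinearMap.id : Module.End F2 (Fin (κ + 1) → F2)) : ℝ) := by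
  obtain ⟨r, h1, h2⟩ := sur_eq S e P 0 0
  refine ind_le (Nat.cast_nonneg _) fun h => ?_
  have : Kr S e ∅ = 2 ^ r := (Nat.card_congr (Equiv.subtypeEquivRight fun y => by
    simp [Sol, ap, xv, rv, dot, mulVec, dotProduct])).trans h1
  rw [this, Nat.pow_lt_pow_iff_right one_lt_two] at h
  rw [h2]
  refine one_le_prod fun j hj => ?_
  have a : (2 : ℝ) ^ (j + 1) ≤ 2 ^ r := pow_le_pow_right₀ one_le_two (by rw [mem_range] at hj; omega)
  have b : (1 : ℝ) ≤ 2 ^ j := one_le_pow₀ one_le_two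
  rw [pow_succ] at a
  linarith

end LD

open LD in
theorem rowLD : OfLD := by
  intro hA hM
  have cf : ∀ i, Nat.card (Fin i → F2) = 2 ^ i := fun i => by simp
  refine ⟨fun ι _ _ S e B F P T J o m z f1 f2 hO hF h2 => ?_,
    fun ι _ _ S e B F P T J o m z p hO hF hp => ?_, fun ι _ _ S e B P J m z κ hO => ?_⟩
  · choose! s s1 s2 using fun d (hd : 2 ≤ d) => exists_irr hd
    have h1 : ∀ d, 2 ≤ d → (0 : ℝ) < 2 ^ d - 1 := fun d hd =>
      sub_pos.2 (one_lt_pow₀ one_lt_two (by omega))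
    refine (hA.mono _ _ _ (fun H => ∑ d ∈ Icc f1 f2, ∑ p ∈ s d, (2 ^ d - 1 : ℝ)⁻¹ *
      Sur (S + H) e P o false (LinearMap.mulLeft F2 (AdjoinRoot.root p))) fun H _ => ?_).trans ?_
    · have n : ∀ d ∈ Icc f1 f2, ∀ p ∈ s d, 0 ≤ (2 ^ d - 1 : ℝ)⁻¹ *
          Sur (S + H) e P o false (LinearMap.mulLeft F2 (AdjoinRoot.root p)) := fun d hd p _ =>
        mul_nonneg (inv_pos.2 (h1 d (h2.trans (mem_Icc.1 hd).1))).le (Nat.cast_nonneg _)
      refine ind_le (sum_nonneg fun d hd => sum_nonneg (n d hd)) fun ⟨p, a, b, c, d⟩ => ?_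
      have hp := mem_Icc.2 ⟨b, c⟩
      refine le_trans ?_ ((single_le_sum (n _ hp) ((s2 _ (h2.trans b) p).2 ⟨a, rfl⟩)).trans
        (single_le_sum (fun d hd => sum_nonneg (n d hd)) hp))
      rw [le_inv_mul_iff₀ (h1 _ (h2.trans b)), mul_one]
      have := (Nat.cast_le (α := ℝ)).2 (hit_le a d)
      rwa [Nat.cast_pred (by positivity), Nat.cast_pow, Nat.cast_ofNat] at this
    rw [hA.sum]
    refine (sum_le_sum (g := fun d => 1 / (4 * ((2 : ℝ) ^ d - 1)) + Er f2 z m)
      fun d hd => ?_).trans ?_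
    · obtain ⟨d1, d2⟩ := mem_Icc.1 hd
      have d3 := h2.trans d1
      rw [hA.sum]
      refine (sum_le_card_nsmul _ _ ((2 ^ d - 1 : ℝ)⁻¹ * (1 / 2 ^ d + Er f2 z m))
        fun p hp => ?_).trans ?_
      · obtain ⟨a, rfl⟩ := (s2 d d3 p).1 hp
        obtain ⟨_, c⟩ := card_root a.ne_zero
        rw [hA.mul]
        have := (abs_le.1 (hM F2 ι _ i2 i2 0 1 S e B F P T J o false m z _
          (LinearMap.mulLeft F2 (AdjoinRoot.root p)) lr hO hF c)).2
        exact mul_le_mul_of_nonneg_left (by linarith [er_mono d2 z m]) (inv_pos.2 (h1 _ d3)).le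
      · obtain ⟨k, rfl⟩ := Nat.exists_eq_add_of_le' d3
        have a : ((s (k + 2)).card : ℝ) ≤ 2 ^ k := by exact_mod_cast s1 _ d3
        have b := h1 _ d3
        have c := er_pos f2 z m
        have c1 : (1 : ℝ) ≤ 2 ^ k := one_le_pow₀ one_le_two
        rw [nsmul_eq_mul]
        refine (mul_le_mul_of_nonneg_right a (by positivity)).trans ?_
        rw [mul_add, mul_add]
        refine add_le_add (le_of_eq (by field_simp; ring)) ?_
        rw [← mul_assoc]
        refine mul_le_of_le_one_left c ?_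
        rw [mul_inv_le_iff₀ b, pow_add]
        linarith
    · rw [sum_add_distrib, sum_const, nsmul_eq_mul, Nat.card_Icc]
      exact add_le_add le_rfl (mul_le_mul_of_nonneg_right (Nat.cast_le.2 (by omega)) (er_pos _ _ _))
  · obtain ⟨β, hβ⟩ := exists_root_of_degree_eq_one
      ((degree_eq_iff_natDegree_eq_of_pos one_pos).2 hp)
    refine (hA.mono _ _ _ _ fun H _ => hit_one (S + H) e P o hp hβ).trans ?_
    rw [hA.add, hA.add, hA.mul, hA.mul]
    have k := fun i => abs_le.1 (hM F2 ι (Fin i → F2) i2 i2 0 1 S e B F P T J o false m z i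
      (β • LinearMap.id) lr hO hF (cf i))
    linarith [(k 1).2, (k 2).1, (k 3).2, er_mono (show 1 ≤ 3 by norm_num) z m,
      er_mono (show 2 ≤ 3 by norm_num) z m, er_pos 3 z m]
  · refine (hA.mono _ _ _ _ fun H _ => ker_le (S + H) e P κ).trans ?_
    linarith [(abs_le.1 (hM F2 ι (Fin (κ + 1) → F2) i2 i2 0 1 S e B B P ∅ J 0 false m z _
      ((0 : F2) • LinearMap.id) lr hO ⟨hO.sub, inter_subset_right, subset_rfl, fun _ => rfl, by simp,
        disjoint_empty_left _, disjoint_empty_left _, fun y h _ _ => funext fun l =>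
          h l (notMem_empty l)⟩ (cf _))).2]

end Pool.Agent.MP_1246c0_nt.H12
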