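import Pool.Agent.MP_1246c0_nt.H25.SpecA
import Pool.Agent.MP_1246c0_nt.H93.UN
import Pool.Agent.MP_db5b97_nt.H79.UQ

/-! The quotient of Herbrand of the units of a totally real field. -/

namespace Pool.Agent.MP_1246c0_nt.H25

open NumberField Finset Pool.Agent.MP_db5b97_nt.H85 Pool.Agent.MP_db5b97_nt.H79
open Pool.Agent.MP_1246c0_nt.H12

namespace HU

section Grp

variable {A B : Type} [AddCommGroup A] [AddCommGroup B]

theorem rel_prod (H H' : AddSubgroup A) (K K' : AddSubgroup B) :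
    (H.prod K).relIndex (H'.prod K') = H.relIndex H' * K.relIndex K' := by
  have := AddSubgroup.index_comap (H.prod K) (H'.subtype.prodMap K'.subtype)
  rw [AddMonoidHom.range_prodMap, AddSubgroup.range_subtype, AddSubgroup.range_subtype] at this
  rw [← this, AddMonoidHom.prodMap_comap_prod, AddSubgroup.index_prod]
  rfl

theorem hs_prod (E : AddSubgroup A) (f g : A →+ A) (f' g' : B →+ B) :
    hs (E.prod ⊤) (f.prodMap f') (g.prodMap g') = hs E f g * g'.range.relIndex f'.ker := by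
  rw [hs, hs, ← rel_prod]
  congr 1
  · ext ⟨x, y⟩
    constructor
    · rintro ⟨⟨a, b⟩, h, e⟩
      exact ⟨⟨a, h.1, congrArg Prod.fst e⟩, b, congrArg Prod.snd e⟩
    · rintro ⟨⟨a, h, e⟩, b, e'⟩
      exact ⟨(a, b), ⟨h, trivial⟩, Prod.ext e e'⟩
  · ext ⟨x, y⟩
    simp [AddSubgroup.mem_prod, Prod.ext_iff, and_assoc]

theorem hs_one (j : A →+ B) (hj : Function.Injective j) (f g : B →+ B) (f' g' : A →+ A)
    (hf : ∀ a, f (j a) = j (f' a)) (hg : ∀ a, g (j a) = j (g' a))
    (h : ∀ a, f' a = 0 → ∃ b, g' b = a) : hs j.range f g = 1 := by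
  refine AddSubgroup.relIndex_eq_one.2 ?_
  rintro _ ⟨⟨a, rfl⟩, h0⟩
  obtain ⟨b, rfl⟩ := h a (hj ((hf a).symm.trans (h0.trans (map_zero j).symm)))
  exact ⟨j b, ⟨b, rfl⟩, hg b⟩

theorem idx_ne [Module.Finite ℤ A] (W : AddSubgroup A)
    (h : Module.finrank ℤ W = Module.finrank ℤ A) : W.index ≠ 0 := by
  have h1 := Submodule.finrank_quotient_add_finrank W.toIntSubmodule
  have h2 : Module.finrank ℤ (A ⧸ W.toIntSubmodule) = 0 := by
    have : Module.finrank ℤ W.toIntSubmodule = Module.finrank ℤ A := h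
    omega
  have : Finite (A ⧸ W) := Module.finite_of_fg_torsion (A ⧸ W.toIntSubmodule)
    (Module.finrank_eq_zero_iff_isTorsion.1 h2)
  exact AddSubgroup.index_ne_zero_of_finite

theorem rank_prod [Module.Finite ℤ A] : Module.finrank ℤ (A × ℤ) = Module.finrank ℤ A + 1 := by
  have h1 := Submodule.finrank_quotient_add_finrank (LinearMap.ker (LinearMap.snd ℤ A ℤ))
  rw [((LinearMap.snd ℤ A ℤ).quotKerEquivOfSurjective LinearMap.snd_surjective).finrank_eq,
    Module.finrank_self] at h1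
  rw [← h1, add_comm, ← (Submodule.fstEquiv ℤ A ℤ).finrank_eq]
  rfl

end Grp

section Act

variable {G X : Type} [Group G]

theorem triv {M : Type} [AddCommGroup M] [DistribMulAction G M] (σ : G) (N : ℕ) (hN : σ ^ N = 1)
    (m : M →+ M) (hm : ∀ a, ∑ i ∈ range N, σ ^ i • m ((σ ^ i)⁻¹ • a) = a) (a : M) :
    (Df σ a = 0 → ∃ b, Nm σ N b = a) ∧ (Nm σ N a = 0 → ∃ b, Df σ b = a) := by
  refine ⟨fun h => ⟨m a, ?_⟩, fun h => ?_⟩
  · have h1 : ∀ i : ℕ, σ ^ i • a = a := fun i => by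
      induction i with
      | zero => simp
      | succ i ih => rw [pow_succ, mul_smul, (sub_eq_zero.1 h : σ • a = a), ih]
    rw [Nm_apply]
    exact (sum_congr rfl fun i _ => by rw [inv_smul_eq_iff.2 (h1 i).symm]).trans (hm a)
  · have h1 : ∀ (i : ℕ) (y : M), σ ^ i • y - y ∈ (Df σ : M →+ M).range := fun i y => by
      induction i with
      | zero => simp
      | succ i ih =>
        rw [pow_succ', mul_smul, ← sub_add_sub_cancel _ (σ ^ i • y)]
        exact add_mem ⟨_, rfl⟩ ih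
    have h2 : ∑ i ∈ range N, (σ ^ i)⁻¹ • a = 0 := by
      rw [← smul_zero σ, ← h, Nm_apply, ← sum_range_reflect (fun i => σ ^ i • a), smul_sum]
      refine sum_congr rfl fun i hi => ?_
      rw [← mul_smul, ← pow_succ', inv_eq_of_mul_eq_one_right (b := σ ^ (N - 1 - i + 1))]
      rw [← pow_add, ← hN]
      congr 1
      have := mem_range.1 hi
      omega
    have h3 := sum_mem (t := range N) fun i _ => h1 i (m ((σ ^ i)⁻¹ • a))
    rwa [sum_sub_distrib, hm, ← map_sum, h2, map_zero, sub_zero] at h3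

variable [MulAction G X]

theorem exists_e (σ : G) (hσ : IsOfFinOrder σ) (hf : ∀ (g : G) (x : X), g • x = x → g = 1) :
    ∃ e : X → ℤ, ∀ x, ∑ i ∈ range (orderOf σ), e ((σ ^ i)⁻¹ • x) = 1 := by
  classical
  obtain ⟨r, h1, h2⟩ : ∃ r : X → X, (∀ (i : ℕ) x, r ((σ ^ i)⁻¹ • x) = r x) ∧
      ∀ x, ∃ k < orderOf σ, σ ^ k • r x = x := by
    refine ⟨fun x => (Quotient.mk (MulAction.orbitRel (Subgroup.zpowers σ) X) x).out,
      fun i x => congrArg _ (Quotient.sound ⟨⟨_, inv_mem (Subgroup.npow_mem_zpowers σ i)⟩, rfl⟩),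
      fun x => ?_⟩
    obtain ⟨⟨g, hg⟩, e⟩ := (MulAction.orbitRel (Subgroup.zpowers σ) X).symm (Quotient.mk_out x)
    obtain ⟨k, hk, rfl⟩ := mem_image.1 (hσ.mem_zpowers_iff_mem_range_orderOf.1 hg)
    exact ⟨k, mem_range.1 hk, e⟩
  refine ⟨fun x => if r x = x then 1 else 0, fun x => ?_⟩
  obtain ⟨k, hk, e⟩ := h2 x
  rw [sum_eq_single k (fun i hi hik => if_neg fun h => hik ?_) fun h => absurd (mem_range.2 hk) h,
    h1, if_pos (eq_inv_smul_iff.2 e)]
  rw [h1] at h
  have := hf ((σ ^ i)⁻¹ * σ ^ k) (r x) (by rw [mul_smul, e, ← h])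
  exact pow_injOn_Iio_orderOf (mem_range.1 hi) hk (inv_mul_eq_one.1 this)

/-- functions with integer values -/
def Fn (X : Type) : Type := X → ℤ

instance : AddCommGroup (Fn X) := inferInstanceAs (AddCommGroup (X → ℤ))

instance : DistribMulAction G (Fn X) where
  smul g a := fun x => a (g⁻¹ • x)
  one_smul a := funext fun x => congrArg a (by rw [inv_one, one_smul])
  mul_smul g h a := funext fun x => congrArg a (by rw [mul_inv_rev, mul_smul])
  smul_zero _ := rfl
  smul_add _ _ _ := rfl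

theorem triv_fn (σ : G) (hσ : IsOfFinOrder σ) (hf : ∀ (g : G) (x : X), g • x = x → g = 1)
    (a : Fn X) : (Df σ a = 0 → ∃ b, Nm σ (orderOf σ) b = a) ∧
      (Nm σ (orderOf σ) a = 0 → ∃ b, Df σ b = a) := by
  obtain ⟨e, he⟩ := exists_e σ hσ hf
  refine triv (M := Fn X) σ _ (pow_orderOf_eq_one σ) (AddMonoidHom.mulLeft (R := X → ℤ) e)
    (fun b => ?_) a
  funext x
  refine (Finset.sum_apply x _ _).trans ?_
  rw [← one_mul (b x), ← he x, sum_mul]
  refine sum_congr rfl fun i _ => ?_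
  show e _ * b ((σ ^ i)⁻¹⁻¹ • (σ ^ i)⁻¹ • x) = _
  rw [inv_smul_smul]

variable [Fintype X] {V : Type} [AddCommGroup V] [DistribMulAction G V]

/-- the map attached to a family -/
def jm (u : X → V) : Fn X →+ V × ℤ where
  toFun a := (∑ x, a x • u x, ∑ x, a x)
  map_zero' := Prod.ext (sum_eq_zero fun _ _ => zero_smul _ _) (sum_eq_zero fun _ _ => rfl)
  map_add' a b := Prod.ext
    ((sum_congr rfl fun x _ => add_smul (a x) (b x) (u x)).trans sum_add_distrib) sum_add_distrib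

theorem jm_smul {u : X → V} {g : G} (h : ∀ x, g • u x = u (g • x)) (a : Fn X) :
    jm u (g • a) = (g • (jm u a).1, (jm u a).2) := by
  refine Prod.ext ?_ (Equiv.sum_comp (MulAction.toPerm g⁻¹) a)
  show ∑ x, a (g⁻¹ • x) • u x = g • ∑ x, a x • u x
  rw [smul_sum, ← Equiv.sum_comp (MulAction.toPerm g)]
  refine sum_congr rfl fun x _ => ?_
  rw [MulAction.toPerm_apply, inv_smul_smul, ← h]
  exact ((DistribSMul.toAddMonoidHom V g).map_zsmul _ _).symm

theorem core (σ : G) (hσ : IsOfFinOrder σ) (hf : ∀ (g : G) (x : X), g • x = x → g = 1)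
    (E : AddSubgroup V) (hE : ∀ g : G, ∀ x ∈ E, g • x ∈ E) (u : X → V) (hu : ∀ x, u x ∈ E)
    (h : ∀ x, σ • u x = u (σ • x)) (hj : Function.Injective (jm u))
    (hi : (jm u).range.relIndex (E.prod ⊤) ≠ 0) :
    orderOf σ * hs E (Df σ) (Nm σ (orderOf σ)) = hs E (Nm σ (orderOf σ)) (Df σ) ∧
      hs E (Nm σ (orderOf σ)) (Df σ) ≠ 0 := by
  have hp : ∀ (i : ℕ) x, σ ^ i • u x = u (σ ^ i • x) := fun i => by
    induction i with
    | zero => simp
    | succ i ih => intro x; rw [pow_succ, mul_smul, mul_smul, h, ih]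
  have hN := pow_orderOf_eq_one σ
  have e1 : ∀ a, (Df σ).prodMap (0 : ℤ →+ ℤ) (jm u a) = jm u (Df σ a) := fun a => by
    rw [Df_apply, map_sub, jm_smul h]
    exact Prod.ext rfl (sub_self _).symm
  have e2 : ∀ a, (Nm σ (orderOf σ)).prodMap (nsmulAddMonoidHom (orderOf σ) : ℤ →+ ℤ) (jm u a) =
      jm u (Nm σ (orderOf σ) a) := fun a => by
    rw [Nm_apply, map_sum, sum_congr rfl fun i _ => jm_smul (hp i) a]
    exact Prod.ext (by rw [Prod.fst_sum]; exact Nm_apply _ _ _) (by simp [Prod.snd_sum])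
  have o1 := hs_one _ hj _ _ _ _ e1 e2 fun a => (triv_fn σ hσ hf a).1
  have o2 := hs_one _ hj _ _ _ _ e2 e1 fun a => (triv_fn σ hσ hf a).2
  have := hs_up 1 (jm u).range (E.prod ⊤) (by
      rintro _ ⟨a, rfl⟩
      exact ⟨sum_mem fun x _ => zsmul_mem (hu x) _, trivial⟩) hi _ _
    (fun x => Prod.ext (Df_Nm σ _ hN x.1) rfl)
    (fun x => Prod.ext (Nm_Df σ _ hN x.1) (smul_zero (orderOf σ)))
    (by rintro _ ⟨a, rfl⟩; exact ⟨_, (e1 a).symm⟩) (by rintro _ ⟨a, rfl⟩; exact ⟨_, (e2 a).symm⟩)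
    (fun x hx => ⟨sub_mem (hE σ _ hx.1) hx.1, trivial⟩)
    (fun x hx => ⟨by
      show Nm σ _ x.1 ∈ E
      rw [Nm_apply]
      exact sum_mem fun i _ => hE _ _ hx.1, trivial⟩) (by rw [o1, o2]) (by rw [o2]; exact one_ne_zero)
  have k1 : (nsmulAddMonoidHom (orderOf σ) : ℤ →+ ℤ).range.relIndex (0 : ℤ →+ ℤ).ker =
      orderOf σ := by
    have : (nsmulAddMonoidHom (orderOf σ) : ℤ →+ ℤ).range =
        AddSubgroup.zmultiples (orderOf σ : ℤ) := by
      ext y
      simp [Int.mem_zmultiples_iff, dvd_def, eq_comm]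
    rw [AddMonoidHom.ker_zero, AddSubgroup.relIndex_top_right, this, Int.index_zmultiples,
      Int.natAbs_natCast]
  have k2 : (0 : ℤ →+ ℤ).range.relIndex (nsmulAddMonoidHom (orderOf σ) : ℤ →+ ℤ).ker = 1 := by
    refine AddSubgroup.relIndex_eq_one.2 fun y hy => ⟨0, ?_⟩
    exact ((nsmul_eq_zero_iff_right hσ.orderOf_pos.ne').1 hy).symm
  rwa [hs_prod, hs_prod, k1, k2, one_mul, mul_one, mul_comm] at this

end Act

theorem indep {X : Type} [Fintype X] (l : X → X → ℝ) (h1 : ∀ x w, w ≠ x → l x w < 0)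
    (h2 : ∀ x, ∑ w, l x w = 0) (a : X → ℤ) (h3 : ∀ w, ∑ x, a x * l x w = 0) (h4 : ∑ x, a x = 0) :
    a = 0 := by
  classical
  have hle : ∀ x, a x ≤ 0 := by
    by_contra hc
    obtain ⟨x0, hx0⟩ := not_forall.1 hc
    have k1 : ∀ x, 0 < a x → ∑ w with 0 < a w, l x w = -∑ w with ¬0 < a w, l x w := fun x _ =>
      eq_neg_of_add_eq_zero_left ((sum_filter_add_sum_filter_not _ _ _).trans (h2 x))
    have k2 : ∀ x ∈ (univ : Finset X), 0 ≤ a x * ∑ w with 0 < a w, l x w := fun x _ => by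
      by_cases hx : 0 < a x
      · rw [k1 x hx]
        exact mul_nonneg (by exact_mod_cast hx.le) (neg_nonneg.2 (sum_nonpos fun w hw =>
          (h1 x w fun e => (mem_filter.1 hw).2 (e ▸ hx)).le))
      · exact mul_nonneg_of_nonpos_of_nonpos (by exact_mod_cast not_lt.1 hx)
          (sum_nonpos fun w hw => (h1 x w fun e => hx (e ▸ (mem_filter.1 hw).2)).le)
    have k3 : ∑ x, a x * ∑ w with 0 < a w, l x w = 0 := by
      simp only [mul_sum]
      rw [sum_comm]
      exact sum_eq_zero fun w _ => h3 w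
    have h0 := not_le.1 hx0
    have k4 := (sum_eq_zero_iff_of_nonneg k2).1 k3 x0 (mem_univ _)
    have k5 : ∀ w ∈ univ.filter fun w => ¬0 < a w, l x0 w ≤ 0 := fun w hw =>
      (h1 x0 w fun e => (mem_filter.1 hw).2 (e ▸ h0)).le
    rw [k1 x0 h0, mul_eq_zero, neg_eq_zero, sum_eq_zero_iff_of_nonpos k5] at k4
    refine (sum_pos (fun w _ => ?_) ⟨x0, mem_univ _⟩).ne' h4
    by_contra hw
    exact (h1 x0 w fun e => hw (e ▸ h0)).ne
      (k4.resolve_left (by exact_mod_cast h0.ne') w (mem_filter.2 ⟨mem_univ _, hw⟩))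
  exact funext fun x => (sum_eq_zero_iff_of_nonpos fun x _ => hle x).1 h4 x (mem_univ _)

variable {L : Type} [Field L] [NumberField L]

/-- the logarithm of an absolute value -/
noncomputable def lv (w : InfinitePlace L) : Un L →+ ℝ where
  toFun x := Real.log (w x.val)
  map_zero' := by simp
  map_add' x y := by
    rw [Un.val_add, map_mul, Real.log_mul (by simp) (by simp)]

theorem lv_smul (w : InfinitePlace L) (g : L ≃ₐ[ℚ] L) (x : Un L) :
    lv w (g • x) = lv (g⁻¹ • w) x := rfl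

theorem Eu_io : (io L).range = Eu L := by
  ext x
  rw [UN.int]
  exact exists_congr fun u => ⟨fun e => e ▸ rfl, fun e => Un.ext e.symm⟩

end HU

open HU

theorem rowHU : SHU := by
  intro L _ _ γ hR
  have hγ := isOfFinOrder_of_finite γ
  choose v hv using Units.dirichletUnitTheorem.exists_unit L
  obtain ⟨u, hu⟩ : ∃ u : InfinitePlace L → Un L, ∀ x,
      u x = ∑ i ∈ range (orderOf γ), γ ^ i • io L (Additive.ofMul (v ((γ ^ i)⁻¹ • x))) :=
    ⟨_, fun _ => rfl⟩
  have hE : ∀ x, u x ∈ Eu L := fun x =>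
    hu x ▸ sum_mem fun i _ => UN.smul_mem _ (Eu_io (L := L) ▸ ⟨_, rfl⟩)
  have hs : ∀ x, γ • u x = u (γ • x) := fun x => by
    have := sum_range_succ_comm
      (fun i => γ ^ i • io L (Additive.ofMul (v ((γ ^ i)⁻¹ • γ • x)))) (orderOf γ)
    rw [sum_range_succ', pow_orderOf_eq_one, pow_zero, add_comm, add_right_inj] at this
    rw [hu, hu, ← this, smul_sum]
    refine sum_congr rfl fun i _ => ?_
    rw [pow_succ', mul_smul, mul_inv_rev, mul_smul, inv_smul_smul]
  have hj : Function.Injective (jm u) := (injective_iff_map_eq_zero _).2 fun a ha => by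
    refine indep (fun x w => w.mult * lv w (u x)) (fun x w hw => ?_) (fun x => ?_) a
      (fun w => ?_) (congrArg Prod.snd ha)
    · refine mul_neg_of_pos_of_neg (by exact_mod_cast InfinitePlace.mult_pos) ?_
      rw [hu, map_sum]
      refine sum_neg (fun i _ => ?_) ⟨0, mem_range.2 hγ.orderOf_pos⟩
      exact hv _ ((γ ^ i)⁻¹ • w) fun e => hw (MulAction.injective _ e)
    · obtain ⟨y, hy⟩ := (UN.int _).1 (hE x)
      exact (sum_congr rfl fun w _ => congrArg (fun z => (w.mult : ℝ) * Real.log (w z)) hy).trans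
        (Units.sum_mult_mul_log y)
    · have := congrArg (fun y => (w.mult : ℝ) * lv w y.1) ha
      simp only [jm, AddMonoidHom.coe_mk, ZeroHom.coe_mk, map_sum, map_zsmul, zsmul_eq_mul,
        Prod.fst_zero, map_zero, mul_zero, mul_sum] at this
      exact (sum_congr rfl fun x _ => mul_left_comm _ _ _).trans this
  refine core γ hγ (fun g w h => ?_) (Eu L) (fun g _ => UN.smul_mem g) u hE hs hj ?_
  · exact Subgroup.mem_bot.1
      (((hR.isReal w).isUnramified ℚ).stabilizer_eq_bot ▸ MulAction.mem_stabilizer_iff.2 h)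
  · have hr : ((io L).prodMap (AddMonoidHom.id ℤ)).range = (Eu L).prod ⊤ := by
      rw [AddMonoidHom.range_prodMap, Eu_io,
        AddMonoidHom.range_eq_top.2 (Function.surjective_id (α := ℤ))]
    rw [← hr, ← AddSubgroup.index_comap]
    refine idx_ne _ ?_
    rw [← (eqv _ _ ((io_inj L).prodMap Function.injective_id) hj (by
      rw [hr]
      rintro _ ⟨a, rfl⟩
      exact ⟨sum_mem fun x _ => zsmul_mem (hE x) _, trivial⟩)).toIntLinearEquiv.finrank_eq,
      HU.rank_prod, Units.finrank_eq, Units.rank, Nat.sub_add_cancel Fintype.card_pos]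
    exact Module.finrank_fintype_fun_eq_card ℤ

end Pool.Agent.MP_1246c0_nt.H25
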