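import Pool.Agent.MP_1246c0_nt.H25.SpecU
import Pool.Agent.MP_1246c0_nt.H14.RF

/-! The characters attached to units. -/

namespace Pool.Agent.MP_1246c0_nt.H25

open NumberField Finset Function Pool.Agent.MP_db5b97_nt.H85
open Pool.Agent.MP_1246c0_nt.H12

namespace LCH

/-! ### Signs -/

/-- a sign as a complex number -/
noncomputable def sc (x : F2) : ℂ := if x = 0 then 1 else -1

theorem f2_cases (x : F2) : x = 0 ∨ x = 1 := by
  revert x
  decide

theorem sc_zero : sc 0 = 1 := if_pos rfl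

theorem sc_one : sc 1 = -1 := if_neg one_ne_zero

theorem sc_add (x y : F2) : sc (x + y) = sc x * sc y := by
  have h : (1 : F2) + 1 = 0 := by decide
  rcases f2_cases x with rfl | rfl <;> rcases f2_cases y with rfl | rfl <;>
    simp [h, sc_zero, sc_one]

theorem sc_sum {α : Type} (s : Finset α) (f : α → F2) : sc (∑ q ∈ s, f q) = ∏ q ∈ s, sc (f q) := by
  classical
  induction s using Finset.induction_on with
  | empty => simp [sc_zero]
  | insert i s h ih => rw [sum_insert h, prod_insert h, sc_add, ih]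

theorem norm_sc (x : F2) : ‖sc x‖ = 1 := by
  rcases f2_cases x with rfl | rfl <;> simp [sc_zero, sc_one]

theorem sc_sq (x : F2) : sc x ^ 2 = 1 := by
  rcases f2_cases x with rfl | rfl <;> simp [sc_zero, sc_one]

theorem sc_eq_one {x : F2} (h : sc x = 1) : x = 0 := by
  rcases f2_cases x with rfl | rfl
  · rfl
  · rw [sc_one] at h
    norm_num at h

theorem sum_sc {W : Type} [AddCommGroup W] [Fintype W] (f : W →+ F2) :
    ∑ μ, sc (f μ) = ((Fintype.card W * ind (∀ μ, f μ = 0) : ℝ) : ℂ) := by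
  by_cases h : ∀ μ, f μ = 0
  · simp [h, sc_zero, ind]
  · rw [ind, if_neg h]
    push Not at h
    obtain ⟨ν, hν⟩ := h
    have h1 : f ν = 1 := (f2_cases _).resolve_left hν
    have h2 : ∑ μ, sc (f μ) = ∑ μ, sc (f (μ + ν)) :=
      (Fintype.sum_equiv (Equiv.addRight ν) _ _ fun _ => rfl).symm
    simp only [map_add, sc_add, h1, sc_one, mul_neg, mul_one, sum_neg_distrib] at h2
    simp only [mul_zero, Complex.ofReal_zero]
    linear_combination h2 / 2

/-- the sign of a real number, additively -/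
noncomputable def sr (x : ℝ) : F2 := if x < 0 then 1 else 0

theorem sr_mul {x y : ℝ} (hx : x ≠ 0) (hy : y ≠ 0) : sr (x * y) = sr x + sr y := by
  have h : (1 : F2) + 1 = 0 := by decide
  unfold sr
  rcases lt_or_gt_of_ne hx with hx | hx <;> rcases lt_or_gt_of_ne hy with hy | hy
  · rw [if_neg (mul_pos_of_neg_of_neg hx hy).not_gt, if_pos hx, if_pos hy, h]
  · rw [if_pos (mul_neg_of_neg_of_pos hx hy), if_pos hx, if_neg hy.not_gt, add_zero]
  · rw [if_pos (mul_neg_of_pos_of_neg hx hy), if_neg hx.not_gt, if_pos hy, zero_add]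
  · rw [if_neg (mul_pos hx hy).not_gt, if_neg hx.not_gt, if_neg hy.not_gt, add_zero]

theorem sr_prod {α : Type} (s : Finset α) (f : α → ℝ) (hf : ∀ i, f i ≠ 0) :
    sr (∏ i ∈ s, f i) = ∑ i ∈ s, sr (f i) := by
  classical
  induction s using Finset.induction_on with
  | empty => simp [sr]
  | insert i s h ih =>
    rw [sum_insert h, prod_insert h, sr_mul (hf i) (prod_ne_zero_iff.2 fun j _ => hf j), ih]

/-! ### Characters modulo powers of two -/

theorem five_pow (i : ℕ) : ∃ c : ℤ, (5 : ℤ) ^ 2 ^ i = 1 + 2 ^ (i + 2) * (2 * c + 1) := by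
  induction i with
  | zero => exact ⟨0, by norm_num⟩
  | succ i ih =>
    obtain ⟨c, hc⟩ := ih
    refine ⟨c + 2 ^ i * (2 * c + 1) ^ 2, ?_⟩
    rw [pow_succ 2 i, pow_mul, hc]
    ring

theorem ex_five {t : ℤ} (ht : 4 ∣ t - 1) (i : ℕ) : ∃ j : ℕ, 2 ^ (i + 2) ∣ t - 5 ^ j := by
  induction i with
  | zero => exact ⟨0, by simpa using ht⟩
  | succ i ih =>
    obtain ⟨j, r, hr⟩ := ih
    rcases Int.even_or_odd' r with ⟨q, hq | hq⟩
    · exact ⟨j, q, by rw [hr, hq]; ring⟩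
    · obtain ⟨c, hc⟩ := five_pow i
      obtain ⟨d, hd⟩ : Odd ((5 : ℤ) ^ j) := Odd.pow (by decide)
      refine ⟨j + 2 ^ i, q - d - c - 2 * d * c, ?_⟩
      have e : t = 5 ^ j + 2 ^ (i + 2) * (2 * q + 1) := by rw [← hq, ← hr]; ring
      rw [pow_add, hc, e, hd]
      ring

theorem unit_iff {k : ℕ} (hk : 1 ≤ k) (t : ℤ) : IsUnit (t : ZMod (2 ^ k)) ↔ Odd t := by
  rw [ZMod.coe_int_isUnit_iff_isCoprime]
  push_cast
  rw [IsCoprime.pow_left_iff hk, Int.isCoprime_two_left]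

theorem gen_five {k : ℕ} (hk : 1 ≤ k) (x : ZMod (2 ^ k)) (hx : IsUnit x) :
    ∃ j : ℕ, x = 5 ^ j ∨ x = -1 * 5 ^ j := by
  obtain ⟨t, rfl⟩ := ZMod.intCast_surjective x
  rw [unit_iff hk] at hx
  have key : ∀ s : ℤ, 4 ∣ s - 1 → ∃ j : ℕ, (s : ZMod (2 ^ k)) = 5 ^ j := fun s hs => by
    obtain ⟨j, hj⟩ := ex_five hs k
    refine ⟨j, ?_⟩
    have h1 : ((s - 5 ^ j : ℤ) : ZMod (2 ^ k)) = 0 := by
      rw [ZMod.intCast_zmod_eq_zero_iff_dvd]
      push_cast
      exact (pow_dvd_pow 2 (by omega)).trans hj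
    push_cast at h1
    exact sub_eq_zero.1 h1
  obtain ⟨q, hq⟩ := hx
  rcases Int.even_or_odd' q with ⟨c, hc | hc⟩
  · obtain ⟨j, hj⟩ := key t ⟨c, by rw [hq, hc]; ring⟩
    exact ⟨j, Or.inl hj⟩
  · obtain ⟨j, hj⟩ := key (-t) ⟨-c - 1, by rw [hq, hc]; ring⟩
    refine ⟨j, Or.inr ?_⟩
    rw [← hj]
    push_cast
    ring

theorem card_killed {k : ℕ} (hk : 1 ≤ k) (M : ℕ) (hM : 0 < M)
    (T : Finset (DirichletCharacter ℂ (2 ^ k))) (hT : ∀ ψ ∈ T, ψ 5 ^ M = 1) : T.card ≤ 2 * M := by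
  classical
  have h1 : T.card ≤ (Polynomial.nthRootsFinset 2 (1 : ℂ) ×ˢ
      Polynomial.nthRootsFinset M (1 : ℂ)).card := by
    refine card_le_card_of_injOn (fun ψ => (ψ (-1), ψ 5)) (fun ψ hψ => ?_) fun ψ _ ψ' _ h => ?_
    · rw [coe_product, Set.mem_prod, mem_coe, mem_coe, Polynomial.mem_nthRootsFinset two_pos,
        Polynomial.mem_nthRootsFinset hM]
      refine ⟨?_, hT ψ hψ⟩
      rw [← map_pow]
      simp
    · simp only [Prod.mk.injEq] at h
      refine MulChar.ext fun x => ?_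
      obtain ⟨j, hj | hj⟩ := gen_five hk x x.isUnit
      · rw [hj, map_pow, map_pow, h.2]
      · rw [hj, map_mul, map_mul, map_pow, map_pow, h.1, h.2]
  rw [card_product] at h1
  have h2 : ∀ m : ℕ, (Polynomial.nthRootsFinset m (1 : ℂ)).card ≤ m := fun m =>
    (Multiset.toFinset_card_le _).trans (Polynomial.card_nthRoots m 1)
  exact h1.trans (Nat.mul_le_mul (h2 2) (h2 M))

/-- the parity of a character -/
noncomputable def ee {N : ℕ} (ψ : DirichletCharacter ℂ N) : F2 := if ψ (-1) = 1 then 0 else 1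

theorem sc_ee {N : ℕ} (ψ : DirichletCharacter ℂ N) : sc (ee ψ) = ψ (-1) := by
  unfold ee
  split_ifs with h
  · rw [sc_zero, h]
  · rw [sc_one]
    have h1 : ψ (-1) * ψ (-1) = 1 := by
      rw [← map_mul]
      simp
    exact ((mul_self_eq_one_iff.1 h1).resolve_left h).symm

theorem psi_abs {N : ℕ} (ψ : DirichletCharacter ℂ N) (t : ℤ) :
    ψ (t.natAbs : ℕ) = ψ (t : ℤ) * sc (ee ψ * sr t) := by
  unfold sr
  split_ifs with h
  · have h1 : t < 0 := by exact_mod_cast h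
    rw [mul_one, sc_ee, ← map_mul, ← Int.cast_natCast, Int.natCast_natAbs, abs_of_neg h1]
    simp
  · have h1 : 0 ≤ t := by exact_mod_cast not_lt.1 h
    rw [mul_zero, sc_zero, mul_one, ← Int.cast_natCast, Int.natCast_natAbs, abs_of_nonneg h1]

/-! ### Norms -/

variable {F : Type} [Field F] [NumberField F]

theorem norm_cong (M : ℕ) (a b : 𝓞 F) :
    ((Algebra.norm ℤ (a + M * b) : ℤ) : ZMod M) = (Algebra.norm ℤ a : ℤ) := by
  classical
  let B := RingOfIntegers.basis F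
  rw [Algebra.norm_eq_matrix_det B, Algebra.norm_eq_matrix_det B]
  change Int.castRingHom (ZMod M) _ = Int.castRingHom (ZMod M) _
  rw [RingHom.map_det, RingHom.map_det, map_add, map_mul, map_natCast, map_add, map_mul,
    map_natCast]
  have h : ((M : ℕ) : Matrix (Module.Free.ChooseBasisIndex ℤ (𝓞 F))
      (Module.Free.ChooseBasisIndex ℤ (𝓞 F)) (ZMod M)) = 0 := by
    rw [← map_natCast (algebraMap (ZMod M) _), ZMod.natCast_self, map_zero]
  rw [h, zero_mul, add_zero]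

theorem odd_of_cop {I : Ideal (𝓞 F)} (h : IsCoprime I (Ideal.span {(2 : 𝓞 F)})) :
    Odd (Ideal.absNorm I) := by
  obtain ⟨i, hi, c, hc, e⟩ := Submodule.mem_sup.1
    ((Ideal.eq_top_iff_one _).1 (Ideal.isCoprime_iff_sup_eq.1 h))
  obtain ⟨b, rfl⟩ := Ideal.mem_span_singleton'.1 hc
  have h1 := norm_cong 2 (1 : 𝓞 F) (-b)
  have h2 : (1 : 𝓞 F) + (2 : ℕ) * -b = i := by
    rw [← e]
    push_cast
    ring
  rw [h2, map_one, Int.cast_one, ZMod.intCast_eq_one_iff_odd, ← Int.natAbs_odd,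
    ← Ideal.absNorm_span_singleton] at h1
  exact h1.of_dvd_nat (Ideal.absNorm_dvd_absNorm_of_le ((Ideal.span_singleton_le_iff_mem _).2 hi))

theorem val_odd {a : 𝓞 F} (h : Odd (Algebra.norm ℤ a)) (w : Sp F)
    (hw : ((2 : ℕ) : 𝓞 F) ∈ w.asIdeal) : w.valuation F (a : F) = 1 := by
  rw [val_eq_one_iff]
  intro ha
  rw [← Int.natAbs_odd, ← Ideal.absNorm_span_singleton] at h
  obtain ⟨c, hc⟩ := h
  have h1 := (Ideal.span_singleton_le_iff_mem _).2 ha (Ideal.absNorm_mem (Ideal.span {a}))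
  rw [hc] at h1
  push_cast at h1 hw
  exact w.isPrime.one_notMem ((Ideal.add_mem_iff_right _ (w.asIdeal.mul_mem_right _ hw)).1 h1)

/-! ### The characters -/

variable {J : Type} [Fintype J]

/-- the symbol of an element at a divisor -/
noncomputable def La (y : 𝓞 F) : Dv F 2 →+ F2 :=
  Finsupp.liftAddHom fun w => (AddMonoidHom.mulRight (qv w.1 (y : F))).comp (Int.castAddHom F2)

theorem La_single (y : 𝓞 F) (w : Pr F 2) : La y (Finsupp.single w 1) = qv w.1 (y : F) := by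
  simp [La]

/-- the character on ideals -/
noncomputable def oc (η : J → 𝓞 F) {N : ℕ} (ψ : DirichletCharacter ℂ N) (μ : J → F2)
    (I : Ideal (𝓞 F)) : ℂ :=
  ψ (Ideal.absNorm I : ℕ) * sc (∑ j, μ j * La (η j) (dI 2 I))

/-- the finite part of the character -/
noncomputable def te (η : J → 𝓞 F) (r : J → F →+* ℝ) {N : ℕ} (ψ : DirichletCharacter ℂ N)
    (μ : J → F2) (a : 𝓞 F) : ℂ :=
  ψ (Algebra.norm ℤ a : ℤ) * sc (∑ j, μ j * (La (η j) (dI 2 (Ideal.span {a})) + sr (r j a)))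

open Classical in
/-- the infinite part of the character -/
noncomputable def AA (r : J → F →+* ℝ) {N : ℕ} (ψ : DirichletCharacter ℂ N) (μ : J → F2) :
    Finset (F →+* ℝ) := (univ.filter fun j => ee ψ + μ j = 1).image r

/-- units with one negative sign -/
structure Us (η : J → 𝓞 F) (r : J → F →+* ℝ) (M : ℕ) : Prop where
  unit : ∀ j, IsUnit (η j)
  inj : r.Injective
  sgn : ∀ j (ρ : F →+* ℝ), ρ (η j) < 0 ↔ ρ = r j
  nrm : ∀ a : 𝓞 F, ((Algebra.norm ℤ a : ℤ) : ℝ) = ∏ j, r j a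
  ray : ∀ a ∈ Ray F 2 M, ∀ b : Un F, dy a b = 0

variable {η : J → 𝓞 F} {r : J → F →+* ℝ} {M k : ℕ}

theorem psi_zero (hk : 1 ≤ k) (ψ : DirichletCharacter ℂ (2 ^ k)) : ψ 0 = 0 :=
  ψ.map_nonunit fun h => by simpa using (unit_iff hk 0).1 (by simpa using h)

theorem oc_top {N : ℕ} (ψ : DirichletCharacter ℂ N) (μ : J → F2) : oc η ψ μ ⊤ = 1 := by
  simp [oc, dI_top, sc_zero]

theorem oc_mul (hk : 1 ≤ k) (ψ : DirichletCharacter ℂ (2 ^ k)) (μ : J → F2) (I I' : Ideal (𝓞 F)) :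
    oc η ψ μ (I * I') = oc η ψ μ I * oc η ψ μ I' := by
  by_cases hI : I = ⊥
  · simp [oc, hI, psi_zero hk]
  by_cases hI' : I' = ⊥
  · simp [oc, hI', psi_zero hk]
  simp only [oc, dI_mul hI hI', map_mul, map_add, Nat.cast_mul, mul_add, sum_add_distrib, sc_add]
  ring

theorem oc_le {N : ℕ} (ψ : DirichletCharacter ℂ N) (μ : J → F2) (I : Ideal (𝓞 F)) :
    ‖oc η ψ μ I‖ ≤ 1 := by
  rw [oc, norm_mul, norm_sc, mul_one]
  exact ψ.norm_le_one _

theorem oc_cop (hk : 1 ≤ k) (ψ : DirichletCharacter ℂ (2 ^ k)) (μ : J → F2) (I : Ideal (𝓞 F))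
    (h : IsCoprime I (Ideal.span {(2 : 𝓞 F)})) : ‖oc η ψ μ I‖ = 1 := by
  rw [oc, norm_mul, norm_sc, mul_one]
  obtain ⟨u, hu⟩ := (unit_iff hk (Ideal.absNorm I : ℕ)).2 (by exact_mod_cast odd_of_cop h)
  rw [← Int.cast_natCast, ← hu]
  exact ψ.unit_norm_eq_one u

omit [NumberField F] in
theorem sgA_eq (hr : r.Injective) {N : ℕ} (ψ : DirichletCharacter ℂ N) (μ : J → F2) (a : 𝓞 F) :
    sgA (AA r ψ μ) a = sc (∑ j, (ee ψ + μ j) * sr (r j a)) := by
  classical
  rw [sgA, AA, prod_image fun _ _ _ _ h => hr h, prod_filter, sc_sum]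
  refine prod_congr rfl fun j _ => ?_
  rcases f2_cases (ee ψ + μ j) with h | h
  · simp [h, sc_zero]
  · rw [if_pos h, h, one_mul, sr]
    split_ifs
    · exact sc_one.symm
    · exact sc_zero.symm

theorem oc_span (U : Us η r M) {N : ℕ} (ψ : DirichletCharacter ℂ N) (μ : J → F2) (a : 𝓞 F)
    (ha : a ≠ 0) : oc η ψ μ (Ideal.span {a}) = te η r ψ μ a * sgA (AA r ψ μ) a := by
  have h0 : ∀ j, r j a ≠ 0 := fun j => (map_ne_zero _).2 (by simpa using ha)
  rw [sgA_eq U.inj, oc, te, Ideal.absNorm_span_singleton, psi_abs, U.nrm, sr_prod _ _ h0,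
    mul_assoc, mul_assoc, ← sc_add, ← sc_add, mul_sum, ← sum_add_distrib, ← sum_add_distrib]
  refine congrArg (fun x => ψ _ * sc x) (sum_congr rfl fun j _ => ?_)
  generalize ee ψ = x, μ j = y, sr (r j a) = z, La (η j) (dI 2 (Ideal.span {a})) = t
  revert x y z t
  decide

theorem te_mul (hk : 1 ≤ k) (ψ : DirichletCharacter ℂ (2 ^ k)) (μ : J → F2) (a b : 𝓞 F) :
    te η r ψ μ (a * b) = te η r ψ μ a * te η r ψ μ b := by
  by_cases ha : a = 0
  · simp [te, ha, psi_zero hk]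
  by_cases hb : b = 0
  · simp [te, hb, psi_zero hk]
  have h1 : ∀ j, sr (r j ((a * b : 𝓞 F) : F)) = sr (r j a) + sr (r j b) := fun j => by
    rw [← sr_mul ((map_ne_zero _).2 (by simpa using ha)) ((map_ne_zero _).2 (by simpa using hb)),
      ← map_mul]
    rfl
  rw [te, te, te, ← Ideal.span_singleton_mul_span_singleton,
    dI_mul (by simpa using ha) (by simpa using hb)]
  simp only [h1]
  simp only [map_mul, map_add, Int.cast_mul, mul_add, sum_add_distrib, sc_add]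
  ring

theorem La_ray (ra : SRA) (U : Us η r M) (j : J) {x : Un F} (hx : x ∈ Ray F 2 M) :
    La (η j) (dv F 2 x) = sr (r j x.val) := by
  classical
  have h0 : η j ≠ 0 := (U.unit j).ne_zero
  have h1 : ∀ w : Sp F, ord w (mkI (η j) h0) = 0 := fun w => by
    rw [ord_eq_zero_iff, val_mkI, val_eq_one_iff]
    exact fun h => w.isPrime.ne_top (Ideal.eq_top_of_isUnit_mem _ h (U.unit j))
  have h2 := U.ray x hx (mkI (η j) h0)
  rw [dy, finsum_eq_single _ (r j) fun ρ hρ => if_neg fun h => hρ ((U.sgn j ρ).1 h.2),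
    finsum_eq_sum_of_support_subset (s := (dv F 2 x).support) _ fun w hw => ?_,
    CharTwo.add_eq_zero] at h2
  · simp only [val_mkI, (U.sgn j (r j)).2 rfl, and_true] at h2
    rw [sr, ← h2, La, Finsupp.liftAddHom_apply, Finsupp.sum]
    refine sum_congr rfl fun w _ => ?_
    rw [RF.tame_right ra w x (h1 _)]
    simp
  · rw [mem_coe, Finsupp.mem_support_iff, dv_apply]
    intro h
    refine hw ?_
    change tame w.1 x _ = 0
    rw [RF.tame_right ra w x (h1 _), h, Int.cast_zero, zero_mul]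

theorem te_per (ra : SRA) (U : Us η r M) (hk : 1 ≤ k) (ψ : DirichletCharacter ℂ (2 ^ k))
    (μ : J → F2) (a b : 𝓞 F) : te η r ψ μ (a + 2 ^ (k + M) * b) = te η r ψ μ a := by
  have h1 : ((Algebra.norm ℤ (a + 2 ^ (k + M) * b) : ℤ) : ZMod (2 ^ k)) =
      (Algebra.norm ℤ a : ℤ) := by
    rw [← norm_cong (2 ^ k) a (2 ^ M * b)]
    push_cast
    rw [pow_add, mul_assoc]
  by_cases hu : IsUnit ((Algebra.norm ℤ a : ℤ) : ZMod (2 ^ k))
  swap
  · rw [te, te, h1, ψ.map_nonunit hu, zero_mul, zero_mul]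
  have ho := (unit_iff hk _).1 hu
  have ho' := (unit_iff hk _).1 (h1 ▸ hu)
  have n0 : ∀ {x : 𝓞 F}, Odd (Algebra.norm ℤ x) → x ≠ 0 := fun hx h => by simp [h] at hx
  have ha0 : (a : F) ≠ 0 := by simpa using n0 ho
  have ha1 : ((a + 2 ^ (k + M) * b : 𝓞 F) : F) ≠ 0 :=
    RingOfIntegers.coe_ne_zero_iff.2 (n0 ho')
  have hx : mkI _ (n0 ho') - mkI _ (n0 ho) ∈ Ray F 2 M := by
    refine ⟨fun w hw => ?_, fun w hw => ?_⟩
    · rw [Un.val_sub, val_mkI, val_mkI, map_div₀, val_odd ho w hw, val_odd ho' w hw, div_one]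
    · have e : ((a + 2 ^ (k + M) * b : 𝓞 F) : F) - a =
          ((2 : ℕ) : F) ^ M * ((2 ^ k * b : 𝓞 F) : F) := by
        change algebraMap (𝓞 F) F (a + 2 ^ (k + M) * b) - algebraMap (𝓞 F) F a =
          ((2 : ℕ) : F) ^ M * algebraMap (𝓞 F) F (2 ^ k * b)
        simp only [map_add, map_mul, map_pow, map_ofNat, Nat.cast_ofNat]
        ring
      rw [Un.val_sub, val_mkI, val_mkI, div_sub_one ha0, map_div₀, val_odd ho w hw, div_one, e,
        map_mul, map_pow]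
      exact mul_le_of_le_one_right' (val_le_one w _)
  rw [te, te, h1]
  refine congrArg (fun x => ψ _ * sc x) (sum_congr rfl fun j _ => ?_)
  have h2 := La_ray ra U j hx
  rw [map_sub, map_sub, dv_mkI, dv_mkI, Un.val_sub, val_mkI, val_mkI] at h2
  have h3 : sr (r j ((a + 2 ^ (k + M) * b : 𝓞 F) : F)) =
      sr (r j (((a + 2 ^ (k + M) * b : 𝓞 F) : F) / a)) + sr (r j a) := by
    rw [← sr_mul ((map_ne_zero _).2 (div_ne_zero ha1 ha0)) ((map_ne_zero _).2 ha0), ← map_mul,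
      div_mul_cancel₀ _ ha0]
  rw [h3, ← h2]
  generalize μ j = y, sr (r j a) = z, La (η j) (dI 2 (Ideal.span {a})) = t,
    La (η j) (dI 2 (Ideal.span {a + 2 ^ (k + M) * b})) = s
  revert s y z t
  decide

theorem mu_eq (U : Us η r M) {N : ℕ} (ψ : DirichletCharacter ℂ N) (μ : J → F2)
    (h : ∀ b, IsCoprime b 2 → te η r ψ μ b = 1) (j : J) : μ j = ee ψ := by
  classical
  have h1 := oc_span U ψ μ (η j) (U.unit j).ne_zero
  have h2 : IsCoprime (η j) 2 := by
    obtain ⟨u, hu⟩ := U.unit j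
    exact ⟨↑u⁻¹, 0, by rw [← hu]; simp⟩
  rw [h _ h2, one_mul, Ideal.span_singleton_eq_top.2 (U.unit j), oc_top, sgA_eq U.inj,
    sum_eq_single j (fun i _ hi => ?_) (by simp), sr, if_pos ((U.sgn j _).2 rfl), mul_one] at h1
  · exact (CharTwo.add_eq_zero.1 (sc_eq_one h1.symm)).symm
  · rw [sr, if_neg fun h => hi (U.inj ((U.sgn j _).1 h)), mul_zero]

theorem five_eq {N : ℕ} (ψ : DirichletCharacter ℂ N) (μ : J → F2)
    (h : ∀ b, IsCoprime b 2 → te η r ψ μ b = 1) : ψ 5 ^ (2 * Module.finrank ℚ F) = 1 := by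
  have h1 := congrArg (· ^ 2) (h 5 ⟨1, -2, by norm_num⟩)
  have h2 : Algebra.norm ℤ (5 : 𝓞 F) = 5 ^ Module.finrank ℚ F := by
    rw [← RingOfIntegers.rank, ← Algebra.norm_algebraMap]
    simp
  simp only [te, mul_pow, sc_sq, mul_one, h2, one_pow] at h1
  push_cast at h1
  rw [map_pow, ← pow_mul, mul_comm] at h1
  exact h1

theorem Hol.mono {ω : Ideal (𝓞 F) → ℂ} {B B' : ℝ} (h : Hol ω B) (hB : B ≤ B') : Hol ω B' := by
  obtain ⟨G, h1, h2, h3⟩ := h
  exact ⟨G, h1, fun s hs => (h2 s hs).trans hB, h3⟩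

theorem bound (C : ℝ) (k M N : ℕ) (hk : 1 ≤ k) (A : ℝ) (hA : |C| + (M + 1) * (N + 1) ≤ A) :
    C * (2 ^ (k + M)) ^ (N + 1) ≤ Real.exp (A * k) := by
  have hk' : (1 : ℝ) ≤ k := by exact_mod_cast hk
  have h1 : C ≤ Real.exp (|C| * k) := by
    have := Real.add_one_le_exp (|C| * k)
    nlinarith [le_abs_self C, abs_nonneg C]
  have h2 : ((2 : ℝ) ^ (k + M)) ^ (N + 1) ≤ Real.exp ((M + 1) * (N + 1) * k) := by
    have h3 : (2 : ℝ) ≤ Real.exp 1 := by
      have := Real.add_one_le_exp 1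
      linarith
    calc ((2 : ℝ) ^ (k + M)) ^ (N + 1) ≤ (Real.exp 1 ^ (k + M)) ^ (N + 1) := by gcongr
      _ = Real.exp (((k + M) * (N + 1) : ℕ) : ℝ) := by
        rw [← pow_mul, ← Real.exp_nat_mul, mul_one]
      _ ≤ _ := by
        refine Real.exp_le_exp.2 ?_
        push_cast
        have h4 : (k : ℝ) + M ≤ (M + 1) * k := by nlinarith [Nat.cast_nonneg (α := ℝ) M]
        nlinarith [Nat.cast_nonneg (α := ℝ) N]
  calc C * (2 ^ (k + M)) ^ (N + 1)
      ≤ Real.exp (|C| * k) * Real.exp ((M + 1) * (N + 1) * k) := by gcongr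
    _ ≤ _ := by
      rw [← Real.exp_add, ← add_mul]
      exact Real.exp_le_exp.2 (by gcongr)

theorem main (ra : SRA) (al : SAL2) (U : Us η r M) :
    ∃ A : ℝ, ∀ (k : ℕ) (W : AddSubgroup (J → F2)), 1 ≤ k →
    ∃ (C : Type) (_ : Fintype C) (ω : C → Ideal (𝓞 F) → ℂ) (ker : Ideal (𝓞 F) → Prop)
      (Tv : Finset C), Cf k A ω ker Tv ∧ Fintype.card C = 2 ^ (k - 1) * Nat.card W ∧
      Tv.card ≤ 2 * (2 * Module.finrank ℚ F) ∧ ∀ I, Ideal.absNorm I % 2 ^ k = 1 →
        (∀ μ ∈ W, ∑ j, μ j * La (η j) (dI 2 I) = 0) → ker I := by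
  classical
  obtain ⟨C0, hC⟩ := al F
  refine ⟨|C0| + (M + 1) * (Module.finrank ℚ F + 1) + 8 * Module.finrank ℚ F, fun k W hk => ?_⟩
  have : Fintype W := Fintype.ofFinite W
  have hcard : Fintype.card (DirichletCharacter ℂ (2 ^ k) × W) = 2 ^ (k - 1) * Nat.card W := by
    rw [Fintype.card_prod, ← Nat.card_eq_fintype_card, ← Nat.card_eq_fintype_card,
      DirichletCharacter.card_eq_totient_of_hasEnoughRootsOfUnity,
      Nat.totient_prime_pow Nat.prime_two hk]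
    simp
  have hT : (univ.filter fun c : DirichletCharacter ℂ (2 ^ k) × W =>
      ∀ b, IsCoprime b 2 → te η r c.1 c.2.1 b = 1).card ≤ 2 * (2 * Module.finrank ℚ F) := by
    rw [← card_image_of_injOn (f := Prod.fst) fun c hc c' hc' h => ?_]
    · refine card_killed hk _ (by have := Module.finrank_pos (R := ℚ) (M := F); omega) _
        fun ψ hψ => ?_
      obtain ⟨c, hc, rfl⟩ := mem_image.1 hψ
      exact five_eq _ _ (mem_filter.1 hc).2
    · refine Prod.ext h (Subtype.ext (funext fun j => ?_))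
      rw [mu_eq U _ _ (mem_filter.1 hc).2, mu_eq U _ _ (mem_filter.1 hc').2, h]
  refine ⟨DirichletCharacter ℂ (2 ^ k) × W, inferInstance, fun c => oc η c.1 c.2.1,
    fun I => Ideal.absNorm I % 2 ^ k = 1 ∧ ∀ μ ∈ W, ∑ j, μ j * La (η j) (dI 2 I) = 0,
    univ.filter fun c => ∀ b, IsCoprime b 2 → te η r c.1 c.2.1 b = 1,
    ⟨fun c => oc_top _ _, fun c => oc_mul hk _ _, fun c => oc_le _ _, fun I _ => ?_,
      fun I hI => hI.1, fun c hc => ?_, ?_⟩, hcard, hT, fun I h h' => ⟨h, h'⟩⟩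
  · let f : W →+ F2 := AddMonoidHom.mk' (fun μ => ∑ j, μ.1 j * La (η j) (dI 2 I)) fun x y => by
      simp [add_mul, sum_add_distrib]
    have h1 := sum_sc f
    have h2 : ((Ideal.absNorm I : ℕ) : ZMod (2 ^ k)) = 1 ↔ Ideal.absNorm I % 2 ^ k = 1 := by
      rw [← Nat.cast_one, ZMod.natCast_eq_natCast_iff',
        Nat.mod_eq_of_lt (Nat.one_lt_two_pow (by omega))]
    have h3 : (∀ μ, f μ = 0) ↔ ∀ μ ∈ W, ∑ j, μ j * La (η j) (dI 2 I) = 0 := Subtype.forall
    rw [h3] at h1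
    rw [Fintype.sum_prod_type]
    simp only [oc]
    rw [← sum_mul_sum, DirichletCharacter.sum_characters_eq]
    erw [h1]
    rw [Fintype.card_prod, ← Nat.card_eq_fintype_card (α := DirichletCharacter ℂ (2 ^ k)),
      DirichletCharacter.card_eq_totient_of_hasEnoughRootsOfUnity]
    simp only [h2, ind]
    by_cases h4 : Ideal.absNorm I % 2 ^ k = 1
    · by_cases h5 : ∀ μ ∈ W, ∑ j, μ j * La (η j) (dI 2 I) = 0
      · rw [if_pos h4, if_pos h5, if_pos ⟨h4, h5⟩]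
        simp
      · rw [if_neg h5, if_neg fun h : _ ∧ _ => h5 h.2]
        simp
    · simp [h4]
  · have h1 : ∃ b, IsCoprime b 2 ∧ te η r c.1 c.2.1 b ≠ 1 := by simpa using hc
    refine Hol.mono (hC (k + M) _ (te η r c.1 c.2.1) (AA r c.1 c.2.1) (oc_mul hk _ _) (oc_le _ _)
      (oc_cop hk _ _) (oc_span U _ _) (te_per ra U hk _ _) (te_mul hk _ _) h1)
      (bound C0 k M _ hk _ ?_)
    have : (0 : ℝ) ≤ 8 * Module.finrank ℚ F := by positivity
    linarith
  · have h1 : 2 ^ k ≤ 2 * Fintype.card (DirichletCharacter ℂ (2 ^ k) × W) := by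
      rw [hcard]
      obtain ⟨k, rfl⟩ : ∃ k', k = k' + 1 := ⟨k - 1, by omega⟩
      rw [Nat.add_sub_cancel, pow_succ']
      exact Nat.mul_le_mul_left 2 (Nat.le_mul_of_pos_right _ Nat.card_pos)
    have h2 := Nat.mul_le_mul hT h1
    have h3 : (0 : ℝ) ≤ |C0| + (M + 1) * (Module.finrank ℚ F + 1) := by positivity
    have h4 : (0 : ℝ) ≤ Fintype.card (DirichletCharacter ℂ (2 ^ k) × W) := by positivity
    have h5 := (Nat.cast_le (α := ℝ)).2 h2
    push_cast at h5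
    nlinarith [mul_nonneg h3 h4]

theorem us (cy : SCY) (rd : SRD) (n : ℕ) (D : Dat n) : ∃ r : ZMod (2 ^ n) → D.F →+* ℝ,
    Us (fun t : ZMod (2 ^ n) => D.γ⁻¹ ^ t.val • D.η) r (2 * n + 3) := by
  obtain ⟨gal, gen, hg, -⟩ := cy.gal D.F n D.θ D.γ D.cy
  obtain ⟨ρ₀, hρ, hρ'⟩ := D.sgn
  refine ⟨fun j => ρ₀.comp (RF.ex D.γ j)⁻¹.toRingEquiv.toRingHom, fun j => ?_, fun i j h => ?_,
    fun j ρ => ?_, fun a => ?_, rd n D.F D.θ D.γ D.cy⟩
  · exact D.unit.map (MulSemiringAction.toRingHom _ (𝓞 D.F) (RF.ex D.γ j))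
  · refine RF.ex_inj hg (inv_injective (AlgEquiv.ext fun x => ρ₀.injective ?_))
    exact DFunLike.congr_fun h x
  · change (ρ.comp (RF.ex D.γ j).toRingEquiv.toRingHom) D.η < 0 ↔ _
    constructor
    · intro h
      by_contra h2
      refine (hρ' _ fun h3 => h2 ?_).not_gt h
      rw [← h3]
      ext x
      simp
    · rintro rfl
      simpa using hρ
  · have hb : Bijective fun j : ZMod (2 ^ n) => (RF.ex D.γ j)⁻¹ := by
      refine ⟨fun i j h => RF.ex_inj hg (inv_injective h), fun g => ?_⟩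
      obtain ⟨m, hm⟩ := gen g
      exact ⟨m, by simp only [RF.ex_nat hg, inv_inv, hm]⟩
    have h1 := congrArg ρ₀ (Algebra.norm_eq_prod_automorphisms ℚ (a : D.F))
    rw [← Algebra.coe_norm_int, map_prod] at h1
    rw [← Rat.cast_intCast, ← eq_ratCast (ρ₀.comp (algebraMap ℚ D.F)), RingHom.comp_apply, h1]
    exact (Fintype.prod_bijective _ hb _ _ fun _ => rfl).symm

end LCH

theorem rowLCH : OfLCH := by
  intro cy _ _ ra rd al n D
  obtain ⟨r, U⟩ := LCH.us cy rd n D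
  obtain ⟨A, hA⟩ := LCH.main ra al U
  refine ⟨A, fun k W hk => ?_⟩
  obtain ⟨C, i, ω, ker, Tv, h1, h2, h3, h4⟩ := hA k W hk
  refine ⟨C, i, ω, ker, Tv, h1, h2, ?_, fun q ψ hq hq' h => ?_⟩
  · rw [D.cy.rk] at h3
    refine h3.trans (le_of_eq ?_)
    ring
  · have : Fact q.Prime := ⟨hq⟩
    have hq2 : q ≠ 2 := by
      rintro rfl
      obtain ⟨k, rfl⟩ : ∃ k', k = k' + 1 := ⟨k - 1, by omega⟩
      have := Nat.mod_mod_of_dvd 2 (dvd_pow_self 2 (Nat.succ_ne_zero k))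
      rw [hq'] at this
      omega
    have e1 : RingHom.ker ψ ≠ ⊥ := fun e => by
      have h2 : (q : 𝓞 D.F) ∈ RingHom.ker ψ := by simp [RingHom.mem_ker]
      rw [e, Ideal.mem_bot] at h2
      exact hq.ne_zero (by exact_mod_cast h2)
    have e2 : ((2 : ℕ) : 𝓞 D.F) ∉ RingHom.ker ψ := fun e => by
      rw [RingHom.mem_ker, map_natCast, ZMod.natCast_eq_zero_iff] at e
      exact hq2 ((Nat.prime_dvd_prime_iff_eq hq Nat.prime_two).1 e)
    let v : Pr D.F 2 := ⟨⟨RingHom.ker ψ, RingHom.ker_isPrime ψ, e1⟩, e2⟩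
    refine h4 _ ?_ fun μ hμ => ?_
    · rw [Ideal.absNorm_apply, Submodule.cardQuot_apply,
        Nat.card_congr (RingHom.quotientKerEquivOfSurjective (ZMod.ringHom_surjective ψ)).toEquiv,
        Nat.card_zmod, hq']
    · rw [← h μ hμ]
      refine sum_congr rfl fun t _ => ?_
      have e3 : dI 2 (RingHom.ker ψ) = Finsupp.single v 1 := dI_pr v
      rw [e3, LCH.La_single, ra.qhom D.F v.1 q ψ hq rfl]

end Pool.Agent.MP_1246c0_nt.H25
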