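import Pool.Agent.MP_1246c0_nt.H25.SpecR
import Pool.Agent.MP_1246c0_nt.H56.NG

/-! The probability of a chain that starts off the fresh indices. -/

namespace Pool.Agent.MP_1246c0_nt.H25

open Finset Matrix
open Pool.Agent.MP_1246c0_nt.H12

namespace NGO

open H12.NG

variable {ι : Type} [Fintype ι] [DecidableEq ι]

omit [Fintype ι] in
lemma dot_pto {B P : Finset ι} {y : ι → F2} (hy : ∀ l ∈ P ∩ B, y l = 0) (O : Finset ι) (u : ι → F2) :
    dot B y (pto P O u) = 0 :=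
  sum_eq_zero fun l hl => by
    unfold pto
    split_ifs with h
    · rw [hy l (mem_inter.2 ⟨h, hl⟩), zero_mul]
    · rw [mul_zero]

/-- chains -/
def Cho (S : Matrix ι ι F2) (e : ι → F2) (P : Finset ι) (O : Finset ι) (y : ℕ → ι → F2) : Prop :=
  ∀ j, S *ᵥ y j = pto P O (y (j + 1)) ∧ dot univ e (y j) = 0

lemma Cho.eq {S H : Matrix ι ι F2} {e : ι → F2} {P : Finset ι} {O : Finset ι} {y : ℕ → ι → F2}
    (h : Cho (S + H) e P O y) (j : ℕ) : H *ᵥ y j = pto P O (y (j + 1)) - S *ᵥ y j := by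
  rw [← (h j).1, add_mulVec, add_sub_cancel_left]

open Classical in
/-- dependent chains -/
lemma depo (hA : SAVG) (hP : SHP) (S : Matrix ι ι F2) (e : ι → F2) (B P : Finset ι) (O : Finset ι)
    (j r : ℕ) (y0 : ι → F2) (h0 : ∀ l ∈ P ∩ B, y0 l = 0) (h1 : ∃ l ∈ B, y0 l ≠ 0)
    (hr : j * Bᶜ.card + (j + 1) * j + (j + 1) + j * (j + 1) / 2 + r ≤ (P ∩ B).card) :
    Ex (Hs i2 B (P ∩ B)) (fun H => ind (∃ y : ℕ → ι → F2, y 0 = y0 ∧ Cho (S + H) e P O y ∧
      (Idp (P ∩ B) fun i : Fin j => y (i + 1)) ∧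
      ∀ i : Fin (j + 1), ∃ a : Fin j → F2, ∀ l ∈ P ∩ B, y (i + 1) l = ∑ i', a i' * y (i' + 1) l)) ≤
      1 / 2 ^ r := by
  let X := (Fin j → ι → F2) × (Fin (j + 1) → Fin j → F2) × (Fin (j + 1) → F2)
  let U : X → Fin (j + 1) → ι → F2 := fun x i l =>
    if l ∈ P then ∑ i', x.2.1 i i' * x.1 i' l + x.2.2 i else 0
  refine (ub hA _ _ (fun (x : X) H => (∀ l ∈ B, (H *ᵥ y0) l = (U x 0 - S *ᵥ y0) l) ∧
    ∀ i, ∀ l ∈ B, (H *ᵥ x.1 i) l = (U x i.succ - S *ᵥ x.1 i) l)
    (univ.filter fun x => Idp (P ∩ B) x.1) (2 ^ (j * (j + 1) / 2) / 2 ^ ((P ∩ B).card + j * B.card))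
    ?_ ?_).trans ?_
  · rintro H - ⟨y, rfl, hy, hi, ha⟩
    choose a ha using ha
    have key : ∀ i : Fin (j + 1), ∀ l ∈ B, (H *ᵥ y i) l =
        (U (fun i => y (i + 1), a, fun i => ∑ l' ∈ O, y (i + 1) l') i - S *ᵥ y i) l := by
      intro i l hl
      rw [hy.eq, Pi.sub_apply, Pi.sub_apply]
      congr 1
      simp only [pto, U]
      split_ifs with hp
      · rw [ha i l (mem_inter.2 ⟨hp, hl⟩)]
      · rfl
    exact ⟨(fun i => y (i + 1), a, fun i => ∑ l' ∈ O, y (i + 1) l'),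
      mem_filter.2 ⟨mem_univ _, hi⟩, key 0, fun i => key i.succ⟩
  · intro x hx
    exact le_of_ind (hP.two ι B (P ∩ B) j x.1 (fun i => U x i.succ - S *ᵥ x.1 i) y0
      (U x 0 - S *ᵥ y0) inter_subset_right (mem_filter.1 hx).2 h0 h1) (by positivity)
      (by positivity)
  · have hc : ((univ.filter fun x : X => Idp (P ∩ B) x.1).card : ℝ) ≤
        2 ^ (j * (B.card + Bᶜ.card) + (j + 1) * j + (j + 1)) := by
      have : (univ.filter fun x : X => Idp (P ∩ B) x.1).card ≤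
          2 ^ (j * (B.card + Bᶜ.card) + (j + 1) * j + (j + 1)) := by
        refine (card_le_univ _).trans (le_of_eq ?_)
        rw [card_add_card_compl]
        simp only [X, Fintype.card_prod, Fintype.card_fun, Fintype.card_fin, ZMod.card]
        ring
      exact_mod_cast this
    refine (mul_le_mul_of_nonneg_right hc (by positivity)).trans ?_
    rw [← mul_div_assoc, div_le_div_iff₀ (by positivity) (by positivity), one_mul, ← pow_add,
      ← pow_add]
    refine pow_le_pow_right₀ (by norm_num) ?_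
    rw [mul_add]
    omega

open Classical in
/-- independent chains -/
lemma indepo (hA : SAVG) (hQ : SQF) (hP : SHP) (hC : SCHO) (S : Matrix ι ι F2) (e : ι → F2)
    (B P : Finset ι) (O : Finset ι) (m z k : ℕ) (hO : Ok i2 i2 S e B P (P ∩ B) false m z)
    (hO' : Oa B P O) (hm : 4 * (k + 1) * (k + z + 3) ≤ m)
    (y0 : ι → F2) (h0 : ∀ l ∈ P ∩ B, y0 l = 0) (h1 : ∃ l ∈ B, y0 l ≠ 0) :
    Ex (Hs i2 B (P ∩ B)) (fun H => ind (∃ y : ℕ → ι → F2, y 0 = y0 ∧ Cho (S + H) e P O y ∧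
      Idp (P ∩ B) fun i : Fin (k + 1) => y (i + 1))) ≤ 2 ^ (Bᶜ.card + 1) / 2 ^ k := by
  let ℓ : Fin (k + 1) → (Fin (k + 1) → ι → F2) →+ F2 := fun i => AddMonoidHom.mk'
    (fun Y => dot B (Y i) (S *ᵥ y0) - dot B y0 (S *ᵥ Y i)) (fun Y Y' => by
      simp only [Pi.add_apply, dot_add_left, mulVec_add, dot_add_right]
      ring)
  have hl : ∀ i Y, ℓ i Y = dot B (Y i) (S *ᵥ y0) - dot B y0 (S *ᵥ Y i) := fun _ _ => rfl
  have hN := hC ι S e B P O (P ∩ B) m z k (univ.erase 0) (Pi.single 0 1) 0 ℓ hO hO' hm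
    (notMem_erase _ _) (Pi.single_eq_same _ _)
  rw [card_erase_of_mem (mem_univ _), card_fin, Nat.add_sub_cancel] at hN
  let ex : (↥(P ∩ B) → F2) → ι → F2 := fun x l => if h : l ∈ P ∩ B then x ⟨l, h⟩ else 0
  have hex : ∀ (u : ι → F2) x, dot B u (ex x) = ∑ l : ↥(P ∩ B), u l * x l := by
    intro u x
    rw [dot, ← sum_subset (inter_subset_right (s₁ := P)) fun l _ hl => by simp only [ex, dif_neg hl, mul_zero],
      ← sum_coe_sort]
    exact sum_congr rfl fun l _ => by simp only [ex, dif_pos l.2]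
  let v : (Fin (k + 1) → ι → F2) → (↥(P ∩ B) → F2) → Fin (k + 1) → ι → F2 := fun Y x =>
    Fin.snoc (α := fun _ => ι → F2) (vvo S P O Y) (ex x - S *ᵥ Y (Fin.last k))
  let c : (Fin (k + 1) → ι → F2) → Fin k → F2 := fun Y i =>
    dot B (Y i.castSucc) (S *ᵥ Y (Fin.last k)) + dot B (Y (Fin.last k)) (vvo S P O Y i)
  refine (ub hA _ _ (fun (Y : Fin (k + 1) → ι → F2) H =>
    ∃ x ∈ univ.filter fun x : ↥(P ∩ B) → F2 =>
      ∀ i : Fin k, ∑ l : ↥(P ∩ B), Y i.castSucc l * x l = c Y i,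
      (∀ l ∈ B, (H *ᵥ y0) l = (pto P O (Y 0) - S *ᵥ y0) l) ∧
        ∀ i, ∀ l ∈ B, (H *ᵥ Y i) l = v Y x i l)
    (univ.filter fun Y => Idp (P ∩ B) Y ∧ Cno S e B P O Y ∧ ∀ i ∈ univ.erase 0,
      dot B (Y i) (pto P O (∑ j, (Pi.single 0 1 : Fin (k + 1) → F2) j • Y j)) = ℓ i Y)
    (2 ^ (P ∩ B).card / 2 ^ k *
      (2 ^ ((k + 1) * (k + 1 + 1) / 2) / 2 ^ ((P ∩ B).card + (k + 1) * B.card))) ?_ ?_).trans ?_
  · rintro H hH ⟨y, rfl, hy, hi⟩
    have e1 : ∀ i : Fin k, vvo S P O (fun i : Fin (k + 1) => y (i + 1)) i = H *ᵥ y (i + 1) :=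
      fun i => (hy.eq (i + 1)).symm
    have e2 : ∀ l ∈ B, (H *ᵥ y (k + 1)) l =
        (ex (fun l => pto P O (y (k + 1 + 1)) l) - S *ᵥ y (k + 1)) l := by
      intro l hl
      rw [hy.eq, Pi.sub_apply, Pi.sub_apply]
      congr 1
      simp only [ex]
      split_ifs with h
      · rfl
      · exact if_neg fun hp => h (mem_inter.2 ⟨hp, hl⟩)
    refine ⟨fun i => y (i + 1), mem_filter.2 ⟨mem_univ _, hi, ⟨fun j => (hy _).2, fun j l hl => ?_,
      fun i j => ?_⟩, fun i _ => ?_⟩, fun l => pto P O (y (k + 1 + 1)) l,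
      mem_filter.2 ⟨mem_univ _, fun i => ?_⟩, fun l _ => congrFun (hy.eq 0) l, fun i l hl => ?_⟩
    · rw [e1, hs_row hH _ hl]
    · rw [e1, e1]; exact hs_sym hH _ _
    · have := hs_sym hH (y (i + 1)) (y 0)
      rw [hy.eq 0, hy.eq (i + 1), dot_sub, dot_sub, dot_pto h0] at this
      rw [hl]
      simp only [Pi.single_apply, ite_smul, one_smul, zero_smul, sum_ite_eq', mem_univ, if_true]
      change dot B (y (i + 1)) (pto P O (y (0 + 1))) = _
      linear_combination this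
    · have := hs_sym hH (y (i + 1)) (y (k + 1))
      rw [dot_congr _ e2, dot_sub, ← e1] at this
      refine (hex (y (i + 1)) fun l => pto P O (y (k + 1 + 1)) l).symm.trans ?_
      exact sub_eq_iff_eq_add'.1 this
    · induction i using Fin.lastCases with
      | cast i => simp only [v, Fin.snoc_castSucc, e1, Fin.val_castSucc]
      | last => simp only [v, Fin.snoc_last, Fin.val_last]; exact e2 l hl
  · intro Y hY
    have hi := (mem_filter.1 hY).2.1
    refine (ub hA _ _ (fun (x : ↥(P ∩ B) → F2) H =>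
      (∀ l ∈ B, (H *ᵥ y0) l = (pto P O (Y 0) - S *ᵥ y0) l) ∧ ∀ i, ∀ l ∈ B, (H *ᵥ Y i) l = v Y x i l)
      _ _ (fun _ _ h => h) fun x _ => le_of_ind (hP.two ι B (P ∩ B) (k + 1) Y (v Y x) y0
        _ inter_subset_right hi h0 h1) (by positivity) (by positivity)).trans ?_
    refine mul_le_mul_of_nonneg_right (card_aff hQ (P ∩ B) (fun i : Fin k => Y i.castSucc) ?_ (c Y))
      (by positivity)
    intro a ha
    have := hi (Fin.snoc (α := fun _ => F2) a 0) fun l hl => by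
      simpa [Fin.sum_univ_castSucc] using ha l hl
    funext i
    simpa using congrFun this i.castSucc
  · have hc : ((univ.filter fun Y : Fin (k + 1) → ι → F2 => Idp (P ∩ B) Y ∧ Cno S e B P O Y ∧
        ∀ i ∈ univ.erase 0, dot B (Y i)
          (pto P O (∑ j, (Pi.single 0 1 : Fin (k + 1) → F2) j • Y j)) = ℓ i Y).card : ℝ) ≤
        2 * 2 ^ ((k + 1) * (B.card + Bᶜ.card)) / 2 ^ (k + 1 + Bᶜ.card * k + k * (k - 1) / 2 + k) := by
      rw [le_div_iff₀ (by positivity), card_add_card_compl]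
      have := (Nat.mul_le_mul_right _ (le_nc _ (univ.filter
        fun Y : Fin (k + 1) → ι → F2 => Idp (P ∩ B) Y ∧ Cno S e B P O Y ∧
        ∀ i ∈ univ.erase 0, dot B (Y i)
          (pto P O (∑ j, (Pi.single 0 1 : Fin (k + 1) → F2) j • Y j)) = ℓ i Y)
        fun _ h => (mem_filter.1 h).2.2)).trans hN
      exact_mod_cast this
    refine (mul_le_mul_of_nonneg_right hc (by positivity)).trans (le_of_eq ?_)
    have e : (k + 1) * (k + 1 + 1) / 2 = k * (k - 1) / 2 + (2 * k + 1) := by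
      rw [← Nat.add_mul_div_left _ _ two_pos]
      congr 1
      cases k with
      | zero => rfl
      | succ k => rw [Nat.add_sub_cancel]; ring
    rw [e]
    field_simp
    ring

end NGO

open NGO H12.NG in
theorem rowNGO : OfNGO := by
  intro hA hQ hP hC ι _ _ S e B P O m z k κ hO hO' hm hK
  classical
  have hz := hO.sml
  have hφ := hO.pen
  refine (ub hA _ _ (fun (y0 : ι → F2) H => ∃ y : ℕ → ι → F2, y 0 = y0 ∧ Cho (S + H) e P O y)
    ((univ.filter (St S e B P)).filter fun y => ∃ l ∈ B, y l ≠ 0) (2 ^ (z + 2) / 2 ^ k)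
    ?_ ?_).trans ?_
  · rintro H hH ⟨y, h1, h2, h3⟩
    have h4 : ∀ l, l ∉ P → (S *ᵥ y 0) l = 0 := by
      intro l hl
      have := congrFun (h3 0).1 l
      rwa [add_mulVec, Pi.add_apply, hs_off hH h2 fun h => hl (mem_inter.1 h).1, add_zero, pto,
        if_neg hl] at this
    refine ⟨y 0, mem_filter.2 ⟨mem_filter.2 ⟨mem_univ _, h2, h4, (h3 0).2⟩, ?_⟩, y, rfl, h3⟩
    by_contra h0
    push Not at h0
    exact h1 (hO.col (y 0) h0 fun l _ hl => h4 l hl)
  · intro y0 hy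
    have h0 := (mem_filter.1 (mem_filter.1 hy).1).2.1
    have h1 := (mem_filter.1 hy).2
    refine (ub2 hA _ _ _ (fun H => ∃ j ∈ range (k + 1), ∃ y : ℕ → ι → F2, y 0 = y0 ∧
      Cho (S + H) e P O y ∧ (Idp (P ∩ B) fun i : Fin j => y (i + 1)) ∧
      ∀ i : Fin (j + 1), ∃ a : Fin j → F2, ∀ l ∈ P ∩ B, y (i + 1) l = ∑ i', a i' * y (i' + 1) l)
      ?_).trans ((add_le_add (indepo hA hQ hP hC S e B P O m z k hO hO' hm y0 h0 h1)
        (ub hA _ _ _ _ (1 / 2 ^ (k + k)) (fun _ _ h => h) fun j hj =>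
          depo hA hP S e B P O j (k + k) y0 h0 h1 ?_)).trans ?_)
    · rintro H - ⟨y, e0, hy⟩
      by_cases hi : Idp (P ∩ B) fun i : Fin (k + 1) => y (i + 1)
      · exact Or.inl ⟨y, e0, hy, hi⟩
      · obtain ⟨j, hj, h⟩ := first_dep (P ∩ B) (fun i => y (i + 1)) k hi
        exact Or.inr ⟨j, hj, y, e0, hy, h⟩
    · have h2 : j ≤ k := Nat.lt_succ_iff.1 (mem_range.1 hj)
      have h3 : j * (j + 1) / 2 ≤ j * (j + 1) := Nat.div_le_self _ _
      have h4 : j * Bᶜ.card ≤ k * z := Nat.mul_le_mul h2 hz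
      have h5 : j * j ≤ k * k := Nat.mul_le_mul h2 h2
      nlinarith
    · have h2 : ((k + 1 : ℕ) : ℝ) ≤ 2 ^ k := by exact_mod_cast Nat.lt_two_pow_self
      have h3 : (2 : ℝ) ^ (Bᶜ.card + 1) ≤ 2 ^ (z + 1) := pow_le_pow_right₀ (by norm_num) (by omega)
      have h4 : (1 : ℝ) ≤ 2 ^ (z + 1) := one_le_pow₀ (by norm_num)
      have h5 : ((range (k + 1)).card : ℝ) * (1 / 2 ^ (k + k)) ≤ 1 / 2 ^ k := by
        rw [card_range]
        refine (mul_le_mul_of_nonneg_right h2 (by positivity)).trans (le_of_eq ?_)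
        field_simp
        ring
      refine (add_le_add le_rfl h5).trans ?_
      rw [← add_div]
      refine div_le_div_of_nonneg_right ?_ (by positivity)
      rw [pow_succ _ (z + 1)]
      linarith
  · have h1 : ((univ.filter (St S e B P)).filter fun y => ∃ l ∈ B, y l ≠ 0).card ≤ 2 ^ (κ + z) := by
      refine (card_filter_le _ _).trans ((card_st S e B P).trans ?_)
      rw [pow_add]
      exact Nat.mul_le_mul hK (Nat.pow_le_pow_right two_pos hz)
    have h2 : (((univ.filter (St S e B P)).filter fun y => ∃ l ∈ B, y l ≠ 0).card : ℝ) ≤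
        2 ^ (κ + z) := by exact_mod_cast h1
    refine (mul_le_mul_of_nonneg_right h2 (by positivity)).trans (le_of_eq ?_)
    ring

end Pool.Agent.MP_1246c0_nt.H25
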